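import Pool.Agent.helper94.PT.Num

/-!
The final estimate of the number of queries.
-/

namespace Pool.Agent.helper94.PT

/-- All the phases together.  `h = k / p`, `Q = (k / (N ^ 3 p)) ^ 2 = h ^ 2 / N ^ 6`. -/
theorem num_total {N g x0 : ℕ} (hN : 10 ≤ N) (hg : (N : ℝ) ^ 3 ≤ 3 * g)
    {h nA nB q n0 z a b : ℝ} (hh : 100 * (N : ℝ) ^ 9 ≤ h) (hx : (x0 : ℝ) ^ 2 ≤ h)
    (hz : 0 ≤ z) (ha : 0 ≤ a) (hb : 0 ≤ b) (hza : z + a ≤ 1 + 5 / N) (hzb : z + b ≤ 1 + 5 / N)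
    (hnA : nA ≤ h + 1) (hq : q ≤ 2 * h) (hn0 : n0 ≤ h / (N : ℝ) ^ 4 + 1)
    (hnB : nB ≤ z * h + h / N + 1 + n0) :
    1 + (N + 1) * nA + (2 * N + 1) * ((N + 1) * (nA + (q + 1 + n0))) +
      nA * (2 / N) * h / (g : ℝ) ^ 2 + nB * (2 / N) * h / (g : ℝ) ^ 2 +
      (nA * ((a + 1 / N) * h / (N : ℝ) ^ 3) / ((N : ℝ) ^ 3 - 1) + nA) +
      (nB * ((b + 1 / N) * h / (N : ℝ) ^ 3) / ((N : ℝ) ^ 3 - 1) + nB) +
      (1 + 1 / N) ^ 3 * ((z * h / (N : ℝ) ^ 3) ^ 2 / (1 - 1 / N) ^ 2 + x0 ^ 2)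
      ≤ (1 + 110 / N) * (h / (N : ℝ) ^ 3) ^ 2 := by
  have hNr : (10 : ℝ) ≤ N := by exact_mod_cast hN
  have hN0 : (0 : ℝ) < N := by linarith
  obtain ⟨e, he⟩ : ∃ e : ℝ, e = 1 / N := ⟨_, rfl⟩
  have he0 : 0 < e := by rw [he]; positivity
  have he1 : e ≤ 1 / 10 := by
    rw [he]
    exact div_le_div_of_nonneg_left (by norm_num) (by norm_num) hNr
  have heN : e * N = 1 := by rw [he]; field_simp
  have h5 : (5 : ℝ) / N = 5 * e := by rw [he]; ring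
  have h110 : (110 : ℝ) / N = 110 * e := by rw [he]; ring
  have h2e : (2 : ℝ) / N = 2 * e := by rw [he]; ring
  rw [h5] at hza hzb
  have hN3 : (1000 : ℝ) ≤ (N : ℝ) ^ 3 := by
    calc (1000 : ℝ) = 10 ^ 3 := by norm_num
      _ ≤ (N : ℝ) ^ 3 := pow_le_pow_left₀ (by norm_num) hNr 3
  have hh1 : 100 * (N : ℝ) ≤ h := by
    refine le_trans ?_ hh
    have : (N : ℝ) ^ 1 ≤ (N : ℝ) ^ 9 := pow_le_pow_right₀ (by linarith) (by norm_num)
    rw [pow_one] at this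
    linarith
  have hh0 : 0 < h := by linarith
  have hz1 : z ≤ 3 / 2 := by linarith
  have ha1 : a ≤ 3 / 2 := by linarith
  have hb1 : b ≤ 3 / 2 := by linarith
  -- the number of parts
  have heh : 1 ≤ e * h := by
    calc (1 : ℝ) = e * N := heN.symm
      _ ≤ e * h := mul_le_mul_of_nonneg_left (by linarith) he0.le
  have hA : nA ≤ (1 + e) * h := by linarith
  have hN4 : h / (N : ℝ) ^ 4 ≤ e * h / 10 := by
    have h6 : (N : ℝ) ^ 4 = N * N ^ 3 := by ring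
    rw [h6, div_le_iff₀ (by positivity)]
    have h7 : e * h / 10 * (N * (N : ℝ) ^ 3) = (e * N) * (h * (N : ℝ) ^ 3) / 10 := by ring
    rw [h7, heN]
    nlinarith
  have h100 : 100 ≤ e * h := by
    calc (100 : ℝ) = e * N * 100 := by rw [heN]; ring
      _ = e * (100 * N) := by ring
      _ ≤ e * h := mul_le_mul_of_nonneg_left hh1 he0.le
  have hhN : h / N = e * h := by rw [he]; ring
  have hB : nB ≤ (z + 2 * e) * h := by
    rw [hhN] at hnB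
    linarith
  -- abbreviations
  obtain ⟨Q, hQ⟩ : ∃ Q : ℝ, Q = (h / (N : ℝ) ^ 3) ^ 2 := ⟨_, rfl⟩
  have hQ0 : 0 ≤ Q := by rw [hQ]; positivity
  have hQ' : h ^ 2 = Q * ((N : ℝ) ^ 3) ^ 2 := by
    rw [hQ, div_pow, div_mul_cancel₀ _ (by positivity)]
  have hgr : (0 : ℝ) < g := by nlinarith
  have hg2 : h ^ 2 / (g : ℝ) ^ 2 ≤ 9 * Q := by
    rw [div_le_iff₀ (by positivity), hQ']
    have h6 : ((N : ℝ) ^ 3) ^ 2 ≤ (3 * g) ^ 2 := pow_le_pow_left₀ (by positivity) hg 2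
    calc Q * ((N : ℝ) ^ 3) ^ 2 ≤ Q * (3 * g) ^ 2 := mul_le_mul_of_nonneg_left h6 hQ0
      _ = 9 * Q * (g : ℝ) ^ 2 := by ring
  have hg0 : 0 ≤ h ^ 2 / (g : ℝ) ^ 2 := by positivity
  -- middle phases
  have m1 : nA * (2 / N) * h / (g : ℝ) ^ 2 ≤ 18 * e * (1 + e) * Q := by
    rw [h2e]
    calc nA * (2 * e) * h / (g : ℝ) ^ 2 ≤ (1 + e) * h * (2 * e) * h / (g : ℝ) ^ 2 := by
          gcongr
      _ = 2 * e * (1 + e) * (h ^ 2 / (g : ℝ) ^ 2) := by ring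
      _ ≤ 2 * e * (1 + e) * (9 * Q) := mul_le_mul_of_nonneg_left hg2 (by positivity)
      _ = 18 * e * (1 + e) * Q := by ring
  have m2 : nB * (2 / N) * h / (g : ℝ) ^ 2 ≤ 18 * e * (z + 2 * e) * Q := by
    rw [h2e]
    calc nB * (2 * e) * h / (g : ℝ) ^ 2 ≤ (z + 2 * e) * h * (2 * e) * h / (g : ℝ) ^ 2 := by
          gcongr
      _ = 2 * e * (z + 2 * e) * (h ^ 2 / (g : ℝ) ^ 2) := by ring
      _ ≤ 2 * e * (z + 2 * e) * (9 * Q) := mul_le_mul_of_nonneg_left hg2 (by positivity)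
      _ = 18 * e * (z + 2 * e) * Q := by ring
  -- direct phases
  have hd : h ^ 2 / (N : ℝ) ^ 3 / ((N : ℝ) ^ 3 - 1) ≤ (1 + e) * Q := by
    have h6 : (0 : ℝ) < (N : ℝ) ^ 3 - 1 := by linarith
    rw [div_le_iff₀ h6, div_le_iff₀ (by positivity), hQ']
    have h7 : (N : ℝ) ^ 3 ≤ (1 + e) * ((N : ℝ) ^ 3 - 1) := by
      have h8 : e * (N : ℝ) ^ 3 = (N : ℝ) ^ 2 := by
        calc e * (N : ℝ) ^ 3 = (e * N) * (N : ℝ) ^ 2 := by ring
          _ = (N : ℝ) ^ 2 := by rw [heN, one_mul]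
      have h9 : (100 : ℝ) ≤ (N : ℝ) ^ 2 := by nlinarith
      nlinarith
    calc Q * ((N : ℝ) ^ 3) ^ 2 = Q * (N : ℝ) ^ 3 * (N : ℝ) ^ 3 := by ring
      _ ≤ Q * (N : ℝ) ^ 3 * ((1 + e) * ((N : ℝ) ^ 3 - 1)) :=
          mul_le_mul_of_nonneg_left h7 (by positivity)
      _ = (1 + e) * Q * ((N : ℝ) ^ 3 - 1) * (N : ℝ) ^ 3 := by ring
  have hN31 : (0 : ℝ) < (N : ℝ) ^ 3 - 1 := by linarith
  have d1 : nA * ((a + 1 / N) * h / (N : ℝ) ^ 3) / ((N : ℝ) ^ 3 - 1) ≤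
      (1 + e) * ((1 + e) * (a + e)) * Q := by
    rw [← he]
    calc nA * ((a + e) * h / (N : ℝ) ^ 3) / ((N : ℝ) ^ 3 - 1)
        ≤ (1 + e) * h * ((a + e) * h / (N : ℝ) ^ 3) / ((N : ℝ) ^ 3 - 1) := by gcongr
      _ = (1 + e) * (a + e) * (h ^ 2 / (N : ℝ) ^ 3 / ((N : ℝ) ^ 3 - 1)) := by ring
      _ ≤ (1 + e) * (a + e) * ((1 + e) * Q) := mul_le_mul_of_nonneg_left hd (by positivity)
      _ = (1 + e) * ((1 + e) * (a + e)) * Q := by ring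
  have d2 : nB * ((b + 1 / N) * h / (N : ℝ) ^ 3) / ((N : ℝ) ^ 3 - 1) ≤
      (z + 2 * e) * ((1 + e) * (b + e)) * Q := by
    rw [← he]
    calc nB * ((b + e) * h / (N : ℝ) ^ 3) / ((N : ℝ) ^ 3 - 1)
        ≤ (z + 2 * e) * h * ((b + e) * h / (N : ℝ) ^ 3) / ((N : ℝ) ^ 3 - 1) := by gcongr
      _ = (z + 2 * e) * (b + e) * (h ^ 2 / (N : ℝ) ^ 3 / ((N : ℝ) ^ 3 - 1)) := by ring
      _ ≤ (z + 2 * e) * (b + e) * ((1 + e) * Q) := mul_le_mul_of_nonneg_left hd (by positivity)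
      _ = (z + 2 * e) * ((1 + e) * (b + e)) * Q := by ring
  -- the design
  have c1 : (1 + 1 / (N : ℝ)) ^ 3 * ((z * h / (N : ℝ) ^ 3) ^ 2 / (1 - 1 / N) ^ 2 + x0 ^ 2) ≤
      (1 + e) ^ 3 * (z ^ 2 / (1 - e) ^ 2) * Q + 8 * h := by
    rw [← he]
    have h6 : (1 + e) ^ 3 ≤ 8 := by
      calc (1 + e) ^ 3 ≤ 2 ^ 3 := pow_le_pow_left₀ (by linarith) (by linarith) 3
        _ = 8 := by norm_num
    have h7 : (z * h / (N : ℝ) ^ 3) ^ 2 = z ^ 2 * Q := by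
      rw [hQ, mul_div_assoc, mul_pow]
    have h8 : (1 + e) ^ 3 * (x0 : ℝ) ^ 2 ≤ 8 * h :=
      mul_le_mul h6 hx (by positivity) (by norm_num)
    calc (1 + e) ^ 3 * ((z * h / (N : ℝ) ^ 3) ^ 2 / (1 - e) ^ 2 + (x0 : ℝ) ^ 2)
        = (1 + e) ^ 3 * (z ^ 2 / (1 - e) ^ 2) * Q + (1 + e) ^ 3 * (x0 : ℝ) ^ 2 := by
          rw [h7]; ring
      _ ≤ _ := by linarith
  -- the linear part
  have hA2 : nA ≤ 2 * h := by nlinarith
  have hB2 : nB ≤ 2 * h := by nlinarith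
  have hn1 : n0 ≤ h := by
    have : h / (N : ℝ) ^ 4 ≤ h / 2 := by
      refine hN4.trans ?_
      nlinarith
    linarith
  have l1 : 1 + (N + 1) * nA + (2 * N + 1) * ((N + 1) * (nA + (q + 1 + n0))) + nA + nB + 8 * h ≤
      e * Q := by
    have h6 : nA + (q + 1 + n0) ≤ 6 * h := by linarith
    have h7 : ((N : ℝ) + 1) * (nA + (q + 1 + n0)) ≤ 2 * N * (6 * h) := by
      calc ((N : ℝ) + 1) * (nA + (q + 1 + n0)) ≤ (N + 1) * (6 * h) :=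
            mul_le_mul_of_nonneg_left h6 (by positivity)
        _ ≤ 2 * N * (6 * h) := mul_le_mul_of_nonneg_right (by linarith) (by positivity)
    have h8 : (2 * (N : ℝ) + 1) * ((N + 1) * (nA + (q + 1 + n0))) ≤ 3 * N * (2 * N * (6 * h)) := by
      calc (2 * (N : ℝ) + 1) * ((N + 1) * (nA + (q + 1 + n0)))
          ≤ (2 * N + 1) * (2 * N * (6 * h)) := mul_le_mul_of_nonneg_left h7 (by positivity)
        _ ≤ 3 * N * (2 * N * (6 * h)) :=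
            mul_le_mul_of_nonneg_right (by linarith) (by positivity)
    have h9 : ((N : ℝ) + 1) * nA ≤ 2 * N * (2 * h) := by
      calc ((N : ℝ) + 1) * nA ≤ (N + 1) * (2 * h) :=
            mul_le_mul_of_nonneg_left hA2 (by positivity)
        _ ≤ 2 * N * (2 * h) := mul_le_mul_of_nonneg_right (by linarith) (by positivity)
    have h10 : 1 + (N + 1) * nA + (2 * N + 1) * ((N + 1) * (nA + (q + 1 + n0))) + nA + nB +
        8 * h ≤ 100 * (N : ℝ) ^ 2 * h := by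
      have h11 : (1 : ℝ) ≤ h := by linarith
      have h12 : (N : ℝ) * h ≤ (N : ℝ) ^ 2 * h / 10 := by
        have : (N : ℝ) ^ 2 * h / 10 = N * h * (N / 10) := by ring
        rw [this]
        have h13 : (1 : ℝ) ≤ N / 10 := by linarith
        have h14 : (0 : ℝ) ≤ N * h := by positivity
        nlinarith
      have h13 : h ≤ (N : ℝ) ^ 2 * h / 100 := by
        have : (100 : ℝ) ≤ (N : ℝ) ^ 2 := by nlinarith
        nlinarith
      nlinarith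
    refine h10.trans ?_
    have h14 : 100 * (N : ℝ) ^ 2 * h * N * (N : ℝ) ^ 6 ≤ h * h := by
      calc 100 * (N : ℝ) ^ 2 * h * N * (N : ℝ) ^ 6 = (100 * (N : ℝ) ^ 9) * h := by ring
        _ ≤ h * h := mul_le_mul_of_nonneg_right hh hh0.le
    have h15 : e * Q * N * (N : ℝ) ^ 6 = h * h := by
      calc e * Q * N * (N : ℝ) ^ 6 = (e * N) * (Q * ((N : ℝ) ^ 3) ^ 2) := by ring
        _ = h * h := by rw [heN, ← hQ']; ring
    have h16 : (0 : ℝ) < N * (N : ℝ) ^ 6 := by positivity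
    refine le_of_mul_le_mul_right ?_ h16
    calc 100 * (N : ℝ) ^ 2 * h * (N * (N : ℝ) ^ 6) = 100 * (N : ℝ) ^ 2 * h * N * (N : ℝ) ^ 6 := by
          ring
      _ ≤ h * h := h14
      _ = e * Q * (N * (N : ℝ) ^ 6) := by rw [← h15]; ring
  have hmain := num_main he0.le he1 hz ha hb hza hzb
  have hfin := mul_le_mul_of_nonneg_right hmain hQ0
  rw [← hQ, h110]
  nlinarith

end Pool.Agent.helper94.PT
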