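import Pool.Agent.helper94.PT.Phase
import Pool.Agent.helper94.PT.Num2

/-!
The assembly of the query procedure.
-/

namespace Pool.Agent.helper94.PT

open Finset

set_option linter.unusedSectionVars false

variable {α : Type*} [DecidableEq α]

lemma correct {U A0 Z : Finset α} {G : Finset (Finset α)} {ιA ιB : Type*} {PA : ιA → Finset α}
    {PB : ιB → Finset α} (hGU : ∀ A ∈ G, A ⊆ U) (hA0 : A0 ∈ G)
    (hcA : ∀ x ∈ A0, ∃ i, x ∈ PA i) (hcB : ∀ y ∈ Z \ A0, ∃ i, y ∈ PB i)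
    (hA : ∀ i, W U G (PA i) ∩ (U \ Z) = ∅) (hB : ∀ i, W U G (PB i) ∩ (A0 \ Z) = ∅)
    (hD : ∀ x ∈ Z, ∀ y ∈ Z, Miss G x y) : ∀ x y, Miss G x y := by
  have hmain : ∀ x ∈ U, ∀ y ∈ U, x ∈ A0 → Miss G x y := by
    intro x hx y hy hxA
    by_cases hyZ : y ∈ Z
    · by_cases hxZ : x ∈ Z
      · exact hD x hxZ y hyZ
      · by_cases hyA : y ∈ A0
        · obtain ⟨i, hi⟩ := hcA y hyA
          refine (miss_of_notMem_W hi hx (fun h => ?_)).symm
          have h1 : x ∈ W U G (PA i) ∩ (U \ Z) := mem_inter.mpr ⟨h, mem_sdiff.mpr ⟨hx, hxZ⟩⟩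
          rw [hA i] at h1
          exact notMem_empty _ h1
        · obtain ⟨i, hi⟩ := hcB y (mem_sdiff.mpr ⟨hyZ, hyA⟩)
          refine (miss_of_notMem_W hi hx (fun h => ?_)).symm
          have h1 : x ∈ W U G (PB i) ∩ (A0 \ Z) := mem_inter.mpr ⟨h, mem_sdiff.mpr ⟨hxA, hxZ⟩⟩
          rw [hB i] at h1
          exact notMem_empty _ h1
    · obtain ⟨i, hi⟩ := hcA x hxA
      refine miss_of_notMem_W hi hy (fun h => ?_)
      have h1 : y ∈ W U G (PA i) ∩ (U \ Z) := mem_inter.mpr ⟨h, mem_sdiff.mpr ⟨hy, hyZ⟩⟩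
      rw [hA i] at h1
      exact notMem_empty _ h1
  have hmain2 : ∀ x ∈ U, ∀ y ∈ U, Miss G x y := by
    intro x hx y hy
    by_cases hxA : x ∈ A0
    · exact hmain x hx y hy hxA
    · by_cases hyA : y ∈ A0
      · exact (hmain y hy x hx hyA).symm
      · exact ⟨A0, hA0, hxA, hyA⟩
  intro x y
  by_cases hx : x ∈ U
  · by_cases hy : y ∈ U
    · exact hmain2 x hx y hy
    · obtain ⟨A, hAG, h1, -⟩ := hmain2 x hx x hx
      exact ⟨A, hAG, h1, fun h => hy (hGU A hAG h)⟩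
  · by_cases hy : y ∈ U
    · obtain ⟨A, hAG, h1, -⟩ := hmain2 y hy y hy
      exact ⟨A, hAG, fun h => hx (hGU A hAG h), h1⟩
    · exact ⟨A0, hA0, fun h => hx (hGU A0 hA0 h), fun h => hy (hGU A0 hA0 h)⟩

/-- The set-up phases: saturation and iteration. -/
lemma setup {N k p : ℕ} (hN : 3 ≤ N) (hp : 1 ≤ p) {U : Finset α} {F : Finset (Finset α)}
    (hF : Big F (N ^ 3 * p)) (hk : ∀ A ∈ F, A.card = k) :
    ∃ (A0 : Finset α) (G : Finset (Finset α)) (nB : ℕ) (PA : Fin (k / p + 1) → Finset α)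
      (PB : Fin nB → Finset α), A0 ∈ G ∧ G ⊆ F ∧ (∀ i, (PA i).card ≤ p) ∧
        (∀ i, (PB i).card ≤ p) ∧ (∀ x ∈ A0, ∃ i, x ∈ PA i) ∧
        Sat U G k (N ^ 3) N (Sum.elim PA PB) ∧
        (∀ y ∈ Hi U U G PA N \ A0, ∃ i, y ∈ PB i) ∧ k / (N ^ 4 * p) + 1 ≤ nB ∧
        N * (nB * p) ≤ N * (Hi U U G PA N).card + k + N * p + N * ((k / (N ^ 4 * p) + 1) * p) ∧
        G.card ≤ 1 + (N + 1) * (k / p + 1) + (2 * N + 1) * ((N + 1) *
          ((k / p + 1) + (2 * k / p + 1 + (k / (N ^ 4 * p) + 1)))) := by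
  obtain ⟨A0, hA0, -⟩ := hF ∅ (by simp)
  have hA0c : A0.card ≤ (k / p + 1) * p := by
    rw [hk A0 hA0, mul_comm]
    exact (Nat.lt_mul_div_succ k hp).le
  obtain ⟨PA, hPA, hcovA⟩ := exists_parts A0 hA0c
  have hN3 : 1 ≤ N ^ 3 := Nat.one_le_pow _ _ (by omega)
  have hG0 : ({A0} : Finset (Finset α)) ⊆ F := by
    intro A hA
    rw [mem_singleton] at hA
    rw [hA]
    exact hA0
  obtain ⟨G1, h1, h2, h3, -, h5⟩ := exists_sat (U := U) (N := N) (h := N ^ 3) (p := p) hF hk hG0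
    (P := PA) hPA le_rfl (Nat.le_mul_of_pos_left p hN3)
  have hne : Nonempty (Fin (k / p + 1)) := ⟨0⟩
  have hHi : (Hi U U G1 PA N).card ≤ 2 * k := card_Hi_le hN h5
  obtain ⟨G2, nB, PB, g1, g2, g3, g4, g5, g6, g7, g8, g9⟩ := exists_iter (U := U)
    (n0 := k / (N ^ 4 * p) + 1) hN hp hF hk hPA (Nat.succ_pos _) A0 (2 * N) G1 h2 h5 (by
      calc N * (Hi U U G1 PA N).card ≤ N * (2 * k) := Nat.mul_le_mul_left _ hHi
        _ = 2 * N * k := by ring)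
  refine ⟨A0, G2, nB, PA, PB, g1 (h1 (mem_singleton_self A0)), g2, hPA, g3, hcovA, g5, g6, g7,
    g8, ?_⟩
  rw [card_singleton, Fintype.card_fin] at h3
  omega

end Pool.Agent.helper94.PT
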