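import Pool.Agent.helper94.PT.Asm

/-!
The middle, direct and block phases of the query procedure.
-/

namespace Pool.Agent.helper94.PT

open Finset

set_option linter.unusedSectionVars false

variable {α : Type*} [DecidableEq α] {U A0 : Finset α} {F G : Finset (Finset α)}

open Classical in
/-- The elements of `S` with frequency greater than `1 / N ^ 4`. -/
noncomputable def Md (U S : Finset α) (G : Finset (Finset α)) {n : ℕ} (P : Fin n → Finset α)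
    (N : ℕ) : Finset α := S.filter fun y => 1 / (N : ℝ) ^ 4 < fr U G P y

lemma mem_Md {S : Finset α} {n : ℕ} {P : Fin n → Finset α} {N : ℕ} {y : α} :
    y ∈ Md U S G P N ↔ y ∈ S ∧ 1 / (N : ℝ) ^ 4 < fr U G P y := by
  simp [Md]

lemma Md_subset {S : Finset α} {n : ℕ} {P : Fin n → Finset α} {N : ℕ} : Md U S G P N ⊆ S :=
  fun _ h => (mem_Md.mp h).1

/-- Two phases for one family of parts: first the set `Md`, then the rest of `S`. -/
lemma two_phase {N k p n g m : ℕ} {b v : ℝ} (hN : 2 ≤ N) (hp : 1 ≤ p) (hn : 0 < n) (hg : 1 ≤ g)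
    (hF : Big F (N ^ 3 * p)) (hgN : 2 * g ≤ N ^ 3) {P : Fin n → Finset α}
    (hP : ∀ i, (P i).card ≤ p) (S : Finset α) {G0 : Finset (Finset α)} (h0 : G0 ⊆ G) (hG : G ⊆ F)
    (hM : (Md U S G0 P N).card ≤ m * k) (hb0 : 0 ≤ b) (hb : (k : ℝ) ≤ b * (n * p))
    (hκ : (m : ℝ) ^ (g - 1) * (g + g ^ 2 * b * m) * (N : ℝ) ^ (4 * g) * p ≤ k)
    (hmid : ∑ y ∈ Md U S G0 P N, fr U G0 P y ≤ 2 / N * k)
    (hv : (N : ℝ) ^ 3 * ∑ y ∈ S \ Md U S G0 P N, fr U G0 P y ≤ v * k) :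
    ∃ G', G ⊆ G' ∧ G' ⊆ F ∧ (∀ i, W U G' (P i) ∩ S = ∅) ∧
      (G'.card : ℝ) ≤ G.card + n * (2 / N) * (k / p) / (g : ℝ) ^ 2 +
        (n * ((v + 1 / N) * (k / p) / (N : ℝ) ^ 3) / ((N : ℝ) ^ 3 - 1) + n) := by
  obtain ⟨G3, h1, h2, h3, h4⟩ := mid_phase (by omega) hp hn hg hF hgN hP (Md U S G0 P N) hG hM hb0
    hb hκ
  have hN0 : (0 : ℝ) < N := by exact_mod_cast (by omega : 0 < N)
  have hp0 : (0 : ℝ) < p := by exact_mod_cast hp
  have hg0 : (0 : ℝ) < g := by exact_mod_cast hg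
  have hn0 : (0 : ℝ) ≤ n := Nat.cast_nonneg _
  obtain ⟨G4, g1, g2, g3, g4⟩ := dir_phase (v := v) hN hp hn hF hP S h2 (U := U) (k := k) (by
    have e1 : ∑ y ∈ S, fr U G3 P y = ∑ y ∈ S \ Md U S G0 P N, fr U G3 P y +
        ∑ y ∈ Md U S G0 P N, fr U G3 P y := (sum_sdiff Md_subset).symm
    have e2 : ∑ y ∈ S \ Md U S G0 P N, fr U G3 P y ≤ ∑ y ∈ S \ Md U S G0 P N, fr U G0 P y :=
      sum_le_sum fun y _ => fr_anti P (h0.trans h1) y
    have e3 : ∑ y ∈ S \ Md U S G0 P N, fr U G0 P y ≤ v * k / (N : ℝ) ^ 3 := by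
      rw [le_div_iff₀ (by positivity)]
      linarith
    have e4 : (v + 1 / N) * k / (N : ℝ) ^ 3 = v * k / (N : ℝ) ^ 3 + k / (N : ℝ) ^ 4 := by
      field_simp
    rw [e1, e4]
    linarith)
  refine ⟨G4, h1.trans g1, g2, g3, ?_⟩
  have e5 : (n : ℝ) * (∑ y ∈ Md U S G0 P N, fr U G P y) / (g ^ 2 * p) ≤
      n * (2 / N) * (k / p) / (g : ℝ) ^ 2 := by
    have e6 : ∑ y ∈ Md U S G0 P N, fr U G P y ≤ 2 / N * k :=
      (sum_le_sum fun y _ => fr_anti P h0 y).trans hmid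
    have e7 : (n : ℝ) * (2 / N) * (k / p) / (g : ℝ) ^ 2 = n * (2 / N * k) / (g ^ 2 * p) := by
      field_simp
    rw [e7]
    exact div_le_div_of_nonneg_right (mul_le_mul_of_nonneg_left e6 hn0) (by positivity)
  have e8 : (n : ℝ) * ((v + 1 / N) * k / (N : ℝ) ^ 3) / ((N ^ 3 - 1) * p) =
      n * ((v + 1 / N) * (k / p) / (N : ℝ) ^ 3) / ((N : ℝ) ^ 3 - 1) := by
    have e9 : ((N : ℝ) ^ 3 - 1) ≠ 0 := by
      have : (2 : ℝ) ≤ N := by exact_mod_cast hN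
      have : (1 : ℝ) < (N : ℝ) ^ 3 := one_lt_pow₀ (by linarith) (by norm_num)
      linarith
    field_simp
  rw [e8] at g4
  linarith

end Pool.Agent.helper94.PT
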