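import Pool.Agent.helper94.PT.Asm2

/-!
The assembly of the query procedure: the upper bound.
-/

namespace Pool.Agent.helper94.PT

open Finset

set_option linter.unusedSectionVars false

variable {α : Type*} [DecidableEq α] {F : Finset (Finset α)}

lemma card_Md_le {U : Finset α} {G : Finset (Finset α)} {S : Finset α} {n N k : ℕ} (hN : 1 ≤ N)
    {P : Fin n → Finset α} (h : ∑ y ∈ Md U S G P N, fr U G P y ≤ 2 / N * k) :
    (Md U S G P N).card ≤ 2 * N ^ 3 * k := by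
  have hN0 : (0 : ℝ) < N := by exact_mod_cast hN
  have h1 : ((Md U S G P N).card : ℝ) * (1 / (N : ℝ) ^ 4) ≤ ∑ y ∈ Md U S G P N, fr U G P y := by
    rw [← nsmul_eq_mul, ← sum_const]
    exact sum_le_sum fun y hy => (mem_Md.mp hy).2.le
  have h2 : ((Md U S G P N).card : ℝ) * (1 / (N : ℝ) ^ 4) ≤ 2 / N * k := h1.trans h
  have h3 : ((Md U S G P N).card : ℝ) ≤ 2 * N ^ 3 * k := by
    calc ((Md U S G P N).card : ℝ)
        = ((Md U S G P N).card : ℝ) * (1 / (N : ℝ) ^ 4) * (N : ℝ) ^ 4 := by field_simp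
      _ ≤ 2 / N * k * (N : ℝ) ^ 4 := mul_le_mul_of_nonneg_right h2 (by positivity)
      _ = 2 * N ^ 3 * k := by field_simp
  exact_mod_cast h3

theorem asm_core {N x0 g : ℕ} (hN : 10 ≤ N) (hg : g = N ^ 3 / 2)
    (hdes : ∀ (Z : Finset α) (t : ℕ), 1 ≤ t → 2 * N * x0 ≤ t → 3 * N * Z.card ≤ t ^ 2 →
      ∃ D : Finset (Finset α), (∀ B ∈ D, B.card ≤ t) ∧
      (∀ x ∈ Z, ∀ y ∈ Z, ∃ B ∈ D, x ∈ B ∧ y ∈ B) ∧
      (D.card : ℝ) ≤ (1 + 1 / N) ^ 3 * (((Z.card : ℝ) / t) ^ 2 / (1 - 1 / N) ^ 2 + x0 ^ 2))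
    {k p : ℕ} (hp : 1 ≤ p) (hk : ∀ A ∈ F, A.card = k) (hF : Big F (N ^ 3 * p))
    (c1 : 100 * N ^ 9 * p ≤ k) (c2 : x0 ^ 2 * p ≤ k) (c3 : 2 * N * x0 ≤ p)
    (c4 : 6 * N * k ≤ p ^ 2)
    (c5 : ((2 * N ^ 3 : ℕ) : ℝ) ^ (g - 1) * (g + g ^ 2 * 1 * ((2 * N ^ 3 : ℕ) : ℝ)) *
      (N : ℝ) ^ (4 * g) * p ≤ k)
    (c6 : ((1 : ℕ) : ℝ) ^ (g - 1) * (g + g ^ 2 * (N : ℝ) ^ 4 * ((1 : ℕ) : ℝ)) *
      (N : ℝ) ^ (4 * g) * p ≤ k) :
    ∃ G, G ⊆ F ∧ (G.card : ℝ) ≤ (1 + 110 / N) * ((k : ℝ) / p / (N : ℝ) ^ 3) ^ 2 ∧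
      ∀ x y, Miss G x y := by
  have hN3' : 1000 ≤ N ^ 3 := by
    calc 1000 = 10 ^ 3 := by norm_num
      _ ≤ N ^ 3 := Nat.pow_le_pow_left hN 3
  have hg1 : 1 ≤ g := by omega
  have hgN : 2 * g ≤ N ^ 3 := by omega
  have hg3 : N ^ 3 ≤ 3 * g := by omega
  obtain ⟨A0, G2, nB, PA, PB, hA0, hG2, hPA, hPB, hcovA, hsat, hcovB, hnB0, hnB1, hcard⟩ :=
    setup (U := F.biUnion id) (by omega : 3 ≤ N) hp hF hk
  set U := F.biUnion id with hU
  set Z := Hi U U G2 PA N ∪ Hi U A0 G2 PB N with hZ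
  have hA0U : A0 ⊆ U := subset_biUnion_of_mem id (hG2 hA0)
  have hne1 : Nonempty (Fin (k / p + 1)) := ⟨0⟩
  have hnBpos : 0 < nB := lt_of_lt_of_le (Nat.succ_pos _) hnB0
  have hne2 : Nonempty (Fin nB) := ⟨⟨0, hnBpos⟩⟩
  have hNr : (10 : ℝ) ≤ N := by exact_mod_cast hN
  have hN0 : (0 : ℝ) < N := by linarith
  have hp0 : (0 : ℝ) < p := by exact_mod_cast hp
  have c1r : 100 * (N : ℝ) ^ 9 * p ≤ k := by exact_mod_cast c1
  have hk0 : (0 : ℝ) < k := lt_of_lt_of_le (by positivity) c1r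
  have hd1 : Disjoint Z ((U \ Z) \ Md U (U \ Z) G2 PA N) :=
    disjoint_of_subset_right (sdiff_subset) disjoint_sdiff
  have hd2 : Disjoint Z ((A0 \ Z) \ Md U (A0 \ Z) G2 PB N) :=
    disjoint_of_subset_right (sdiff_subset) disjoint_sdiff
  have hzA := mass_zA (by omega : 3 ≤ N) hsat hA0U
    (L := (U \ Z) \ Md U (U \ Z) G2 PA N) (sdiff_subset.trans sdiff_subset) hd1 (by
      intro y hy
      rw [mem_sdiff, mem_Md, not_and, not_lt] at hy
      exact hy.2 hy.1)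
  have hzB := mass_zB (by omega : 3 ≤ N) hsat hA0U
    (L := (A0 \ Z) \ Md U (A0 \ Z) G2 PB N) ((sdiff_subset.trans sdiff_subset).trans hA0U) hd2 (by
      intro y hy
      rw [mem_sdiff, mem_Md, not_and, not_lt] at hy
      exact hy.2 hy.1)
  rw [← hZ] at hzA hzB
  have hmA : ∑ y ∈ Md U (U \ Z) G2 PA N, fr U G2 PA y ≤ 2 / N * k := by
    refine mass_A (by omega : 3 ≤ N) hsat.left ?_
    intro y hy
    have h1 := mem_sdiff.mp (Md_subset hy)
    rw [mem_sdiff]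
    exact ⟨h1.1, fun h => h1.2 (mem_union_left _ h)⟩
  have hmB : ∑ y ∈ Md U (A0 \ Z) G2 PB N, fr U G2 PB y ≤ 2 / N * k := by
    refine mass_A (by omega : 3 ≤ N) hsat.right ?_
    intro y hy
    have h1 := mem_sdiff.mp (Md_subset hy)
    rw [mem_sdiff]
    refine ⟨hA0U h1.1, fun h => h1.2 (mem_union_right _ ?_)⟩
    exact mem_Hi.mpr ⟨h1.1, (mem_Hi.mp h).2⟩
  obtain ⟨z, hz⟩ : ∃ z : ℝ, z = Z.card / k := ⟨_, rfl⟩
  obtain ⟨a, ha⟩ : ∃ a : ℝ, a = (N : ℝ) ^ 3 * (∑ y ∈ (U \ Z) \ Md U (U \ Z) G2 PA N,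
    fr U G2 PA y) / k := ⟨_, rfl⟩
  obtain ⟨b, hb⟩ : ∃ b : ℝ, b = (N : ℝ) ^ 3 * (∑ y ∈ (A0 \ Z) \ Md U (A0 \ Z) G2 PB N,
    fr U G2 PB y) / k := ⟨_, rfl⟩
  have hz0 : 0 ≤ z := by rw [hz]; positivity
  have ha0 : 0 ≤ a := by
    rw [ha]
    exact div_nonneg (mul_nonneg (by positivity) (sum_nonneg fun y _ => fr_nonneg _ y)) hk0.le
  have hb0 : 0 ≤ b := by
    rw [hb]
    exact div_nonneg (mul_nonneg (by positivity) (sum_nonneg fun y _ => fr_nonneg _ y)) hk0.le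
  have hza : z + a ≤ 1 + 5 / N := by
    rw [hz, ha, ← add_div, div_le_iff₀ hk0]
    exact hzA
  have hzb : z + b ≤ 1 + 5 / N := by
    rw [hz, hb, ← add_div, div_le_iff₀ hk0]
    exact hzB
  have hZc : (Z.card : ℝ) = z * k := by rw [hz]; field_simp
  -- the first family
  have hnA : (k : ℝ) ≤ ((k / p + 1 : ℕ) : ℝ) * p := by
    have h1 : k < p * (k / p + 1) := Nat.lt_mul_div_succ k hp
    have h2 : k ≤ (k / p + 1) * p := by rw [mul_comm]; exact h1.le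
    exact_mod_cast h2
  obtain ⟨G3, h1, h2, h3, h4⟩ := two_phase (v := a) (b := 1) (m := 2 * N ^ 3) (by omega : 2 ≤ N) hp
    (Nat.succ_pos (k / p)) hg1 hF hgN hPA (U \ Z) (Subset.refl G2) hG2
    (card_Md_le (by omega) hmA) zero_le_one (by rw [one_mul]; exact hnA) c5 hmA (le_of_eq (by
      rw [ha]; field_simp))
  -- the second family
  have hnBr : (k : ℝ) ≤ (N : ℝ) ^ 4 * (nB * p) := by
    have h5 : k < (N ^ 4 * p) * (k / (N ^ 4 * p) + 1) :=
      Nat.lt_mul_div_succ k (Nat.mul_pos (Nat.pow_pos (by omega)) hp)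
    have h6 : k ≤ N ^ 4 * (nB * p) := by
      calc k ≤ (N ^ 4 * p) * (k / (N ^ 4 * p) + 1) := h5.le
        _ ≤ (N ^ 4 * p) * nB := Nat.mul_le_mul_left _ hnB0
        _ = N ^ 4 * (nB * p) := by ring
    exact_mod_cast h6
  obtain ⟨G4, g1, g2, g3, g4⟩ := two_phase (v := b) (b := (N : ℝ) ^ 4) (m := 1)
    (by omega : 2 ≤ N) hp hnBpos hg1 hF hgN hPB (A0 \ Z) h1 h2 (by
      rw [one_mul]
      calc (Md U (A0 \ Z) G2 PB N).card ≤ A0.card := card_le_card (Md_subset.trans sdiff_subset)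
        _ = k := hk A0 (hG2 hA0)) (by positivity) hnBr c6 hmB (le_of_eq (by
      rw [hb]; field_simp))
  -- the block design
  have hz32 : z ≤ 3 / 2 := by
    have h5 : (5 : ℝ) / N ≤ 5 / 10 := div_le_div_of_nonneg_left (by norm_num) (by norm_num) hNr
    linarith
  have hpt : p ≤ N ^ 3 * p := Nat.le_mul_of_pos_left p (by omega)
  obtain ⟨D, hD1, hD2, hD3⟩ := hdes Z (N ^ 3 * p) (hp.trans hpt) (c3.trans hpt) (by
    have h5 : (Z.card : ℝ) ≤ 2 * k := by rw [hZc]; nlinarith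
    have h6 : Z.card ≤ 2 * k := by exact_mod_cast h5
    calc 3 * N * Z.card ≤ 3 * N * (2 * k) := Nat.mul_le_mul_left _ h6
      _ = 6 * N * k := by ring
      _ ≤ p ^ 2 := c4
      _ ≤ (N ^ 3 * p) ^ 2 := Nat.pow_le_pow_left hpt 2)
  obtain ⟨G5, k1, k2, k3, k4⟩ := exists_cov hF g2 (P := fun B : D => B.1) (fun B => hD1 B.1 B.2)
  refine ⟨G5, k2, ?_, ?_⟩
  · -- the count
    have hfin := num_total (N := N) (g := g) (x0 := x0) hN (by exact_mod_cast hg3)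
      (h := (k : ℝ) / p) (nA := ((k / p + 1 : ℕ) : ℝ)) (nB := nB) (q := ((2 * k / p : ℕ) : ℝ))
      (n0 := ((k / (N ^ 4 * p) + 1 : ℕ) : ℝ)) (z := z) (a := a) (b := b) (by
        rw [le_div_iff₀ hp0]; exact c1r) (by
        rw [le_div_iff₀ hp0]; exact_mod_cast c2) hz0 ha0 hb0 hza hzb (by
        push_cast
        have : ((k / p : ℕ) : ℝ) ≤ (k : ℝ) / p := Nat.cast_div_le
        linarith) (by
        have : ((2 * k / p : ℕ) : ℝ) ≤ ((2 * k : ℕ) : ℝ) / p := Nat.cast_div_le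
        push_cast at this ⊢
        rw [mul_div_assoc']
        exact this) (by
        have : ((k / (N ^ 4 * p) : ℕ) : ℝ) ≤ (k : ℝ) / ((N ^ 4 * p : ℕ) : ℝ) := Nat.cast_div_le
        push_cast at this ⊢
        rw [div_div, mul_comm (p : ℝ)]
        linarith) (by
        have h5 : (N : ℝ) * (nB * p) ≤ N * (Hi U U G2 PA N).card + k + N * p +
            N * (((k / (N ^ 4 * p) + 1 : ℕ) : ℝ) * p) := by exact_mod_cast hnB1
        have h6 : ((Hi U U G2 PA N).card : ℝ) ≤ z * k := by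
          rw [← hZc]
          exact_mod_cast card_le_card subset_union_left
        have h7 : (N : ℝ) * p * nB ≤ (N : ℝ) * p * (z * (k / p) + k / p / N + 1 +
            ((k / (N ^ 4 * p) + 1 : ℕ) : ℝ)) := by
          calc (N : ℝ) * p * nB = N * (nB * p) := by ring
            _ ≤ N * (Hi U U G2 PA N).card + k + N * p +
              N * (((k / (N ^ 4 * p) + 1 : ℕ) : ℝ) * p) := h5
            _ ≤ N * (z * k) + k + N * p +
              N * (((k / (N ^ 4 * p) + 1 : ℕ) : ℝ) * p) := by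
                have := mul_le_mul_of_nonneg_left h6 hN0.le
                linarith
            _ = _ := by field_simp
        exact le_of_mul_le_mul_left h7 (by positivity))
    refine le_trans ?_ hfin
    have hc2 : (G2.card : ℝ) ≤ 1 + (N + 1) * ((k / p + 1 : ℕ) : ℝ) + (2 * N + 1) * ((N + 1) *
        (((k / p + 1 : ℕ) : ℝ) + (((2 * k / p : ℕ) : ℝ) + 1 +
        ((k / (N ^ 4 * p) + 1 : ℕ) : ℝ)))) := by exact_mod_cast hcard
    have hc5 : (G5.card : ℝ) ≤ G4.card + D.card := by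
      have h5 : G5.card ≤ G4.card + D.card := by
        refine k3.trans (le_of_eq ?_)
        rw [Fintype.card_coe]
      exact_mod_cast h5
    have hD4 : (Z.card : ℝ) / ((N ^ 3 * p : ℕ) : ℝ) = z * (k / p) / (N : ℝ) ^ 3 := by
      rw [hZc]
      push_cast
      field_simp
    rw [hD4] at hD3
    linarith
  · -- correctness
    refine correct (U := U) (A0 := A0) (Z := Z) (PA := PA) (PB := PB) ?_ ?_ hcovA ?_ ?_ ?_ ?_
    · intro A hA
      exact subset_biUnion_of_mem id (k2 hA)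
    · exact k1 (g1 (h1 hA0))
    · intro y hy
      rw [mem_sdiff, hZ, mem_union] at hy
      rcases hy with ⟨h | h, hyA⟩
      · exact hcovB y (mem_sdiff.mpr ⟨h, hyA⟩)
      · exact absurd (mem_Hi.mp h).1 hyA
    · intro i
      have h5 : W U G5 (PA i) ∩ (U \ Z) ⊆ W U G3 (PA i) ∩ (U \ Z) :=
        inter_subset_inter_right (W_anti (g1.trans k1))
      rw [h3 i] at h5
      exact subset_empty.mp h5
    · intro i
      have h5 : W U G5 (PB i) ∩ (A0 \ Z) ⊆ W U G4 (PB i) ∩ (A0 \ Z) :=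
        inter_subset_inter_right (W_anti k1)
      rw [g3 i] at h5
      exact subset_empty.mp h5
    · intro x hx y hy
      obtain ⟨B, hB, hxB, hyB⟩ := hD2 x hx y hy
      obtain ⟨A, hA, hd⟩ := k4 ⟨B, hB⟩
      exact ⟨A, hA, disjoint_left.mp hd hxB, disjoint_left.mp hd hyB⟩

end Pool.Agent.helper94.PT
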