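import Pool.Agent.helper94.PT.Defs

/-!
Double counting over tuples of parts.
-/

namespace Pool.Agent.helper94.PT

open Finset

set_option linter.unusedSectionVars false

variable {α : Type*} [DecidableEq α] {U : Finset α} {G G' : Finset (Finset α)}

section fr

variable {ι : Type*} [Fintype ι] [DecidableEq ι]

/-- The frequency of `y` in the sets `W (P i)`. -/
noncomputable def fr (U : Finset α) (G : Finset (Finset α)) (P : ι → Finset α) (y : α) : ℝ :=
  ((univ.filter fun i => y ∈ W U G (P i)).card : ℝ) / Fintype.card ι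

lemma fr_nonneg (P : ι → Finset α) (y : α) : 0 ≤ fr U G P y := by unfold fr; positivity

lemma fr_le_one (P : ι → Finset α) (y : α) : fr U G P y ≤ 1 := by
  unfold fr
  apply div_le_one_of_le₀ _ (by positivity)
  exact_mod_cast card_le_univ _

lemma fr_anti (P : ι → Finset α) (h : G ⊆ G') (y : α) : fr U G' P y ≤ fr U G P y := by
  unfold fr
  gcongr with i hi
  exact W_anti h

/-- The total size of the sets `W (P i)` inside a set `S` is `n * ∑_{y ∈ S} fr y`. -/
lemma sum_card_inter [Nonempty ι] (P : ι → Finset α) (S : Finset α) :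
    ((∑ i, (W U G (P i) ∩ S).card : ℕ) : ℝ) = Fintype.card ι * ∑ y ∈ S, fr U G P y := by
  have h1 : ∑ i, (W U G (P i) ∩ S).card
      = ∑ y ∈ S, (univ.filter fun i => y ∈ W U G (P i)).card := by
    have : ∀ i, (W U G (P i) ∩ S).card = ∑ y ∈ S, if y ∈ W U G (P i) then 1 else 0 := by
      intro i
      rw [← card_filter, inter_comm]
      congr 1
    simp_rw [this]
    rw [sum_comm]
    simp_rw [card_filter]
  rw [h1]
  push_cast
  rw [mul_sum]
  refine sum_congr rfl fun y _ => ?_
  unfold fr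
  have : (Fintype.card ι : ℝ) ≠ 0 := by exact_mod_cast Fintype.card_ne_zero
  field_simp

end fr

section double

variable {ιA ιB : Type*} [Fintype ιA] [Fintype ιB] [DecidableEq ιA] [DecidableEq ιB]

/-- The index set of a pair of tuples. -/
def tupSet {h1 h2 : ℕ} (f : Fin h1 → ιA) (g : Fin h2 → ιB) : Finset (ιA ⊕ ιB) :=
  univ.image (fun i => Sum.inl (f i)) ∪ univ.image (fun i => Sum.inr (g i))

lemma tupSet_card {h1 h2 : ℕ} (f : Fin h1 → ιA) (g : Fin h2 → ιB) :
    (tupSet f g).card ≤ h1 + h2 := by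
  refine (card_union_le _ _).trans (Nat.add_le_add ?_ ?_) <;>
  exact card_image_le.trans (by simp)

lemma mem_tup {h1 h2 : ℕ} (f : Fin h1 → ιA) (g : Fin h2 → ιB) (PA : ιA → Finset α)
    (PB : ιB → Finset α) (y : α) :
    y ∈ (tupSet f g).biUnion (fun i => W U G (Sum.elim PA PB i)) ↔
      (∃ i, y ∈ W U G (PA (f i))) ∨ ∃ i, y ∈ W U G (PB (g i)) := by
  unfold tupSet
  simp only [mem_biUnion, mem_union, mem_image, mem_univ, true_and]
  constructor
  · rintro ⟨i, ⟨j, rfl⟩ | ⟨j, rfl⟩, h⟩
    · exact Or.inl ⟨j, h⟩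
    · exact Or.inr ⟨j, h⟩
  · rintro (⟨j, h⟩ | ⟨j, h⟩)
    · exact ⟨_, Or.inl ⟨j, rfl⟩, h⟩
    · exact ⟨_, Or.inr ⟨j, rfl⟩, h⟩

lemma card_avoid {h1 h2 : ℕ} (PA : ιA → Finset α) (PB : ιB → Finset α) (y : α) :
    (univ.filter fun fg : (Fin h1 → ιA) × (Fin h2 → ιB) =>
      y ∉ (tupSet fg.1 fg.2).biUnion (fun i => W U G (Sum.elim PA PB i))).card
    = (univ.filter fun i => y ∉ W U G (PA i)).card ^ h1 *
      (univ.filter fun i => y ∉ W U G (PB i)).card ^ h2 := by
  have : (univ.filter fun fg : (Fin h1 → ιA) × (Fin h2 → ιB) =>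
      y ∉ (tupSet fg.1 fg.2).biUnion (fun i => W U G (Sum.elim PA PB i)))
      = (Fintype.piFinset fun _ : Fin h1 => univ.filter fun i => y ∉ W U G (PA i)) ×ˢ
        (Fintype.piFinset fun _ : Fin h2 => univ.filter fun i => y ∉ W U G (PB i)) := by
    ext fg
    rw [mem_filter, mem_tup]
    simp only [mem_univ, true_and, not_or, not_exists, mem_product, Fintype.mem_piFinset,
      mem_filter]
  rw [this, card_product, Fintype.card_piFinset_const, Fintype.card_piFinset_const]

theorem double_tup {k N h1 h2 : ℕ} [Nonempty ιA] [Nonempty ιB] (PA : ιA → Finset α)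
    (PB : ιB → Finset α) (hs : ∀ (f : Fin h1 → ιA) (g : Fin h2 → ιB),
      N * ((tupSet f g).biUnion fun i => W U G (Sum.elim PA PB i)).card ≤ (N + 1) * k) :
    (N : ℝ) * ∑ y ∈ U, (1 - (1 - fr U G PA y) ^ h1 * (1 - fr U G PB y) ^ h2)
      ≤ (N + 1) * k := by
  set a : ℝ := (Fintype.card ιA : ℝ) with ha
  set b : ℝ := (Fintype.card ιB : ℝ) with hb
  have ha0 : 0 < a := by rw [ha]; exact_mod_cast Fintype.card_pos
  have hb0 : 0 < b := by rw [hb]; exact_mod_cast Fintype.card_pos
  have hfa : ∀ y, ((univ.filter fun i => y ∉ W U G (PA i)).card : ℝ)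
      = a * (1 - fr U G PA y) := by
    intro y
    have h := card_filter_add_card_filter_not (s := (univ : Finset ιA))
      (fun i => y ∈ W U G (PA i))
    rw [card_univ] at h
    have h' : ((univ.filter fun i => y ∈ W U G (PA i)).card : ℝ)
      + ((univ.filter fun i => y ∉ W U G (PA i)).card : ℝ) = a := by
      rw [ha]; exact_mod_cast h
    unfold fr
    rw [← ha]
    field_simp
    linarith
  have hfb : ∀ y, ((univ.filter fun i => y ∉ W U G (PB i)).card : ℝ)
      = b * (1 - fr U G PB y) := by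
    intro y
    have h := card_filter_add_card_filter_not (s := (univ : Finset ιB))
      (fun i => y ∈ W U G (PB i))
    rw [card_univ] at h
    have h' : ((univ.filter fun i => y ∈ W U G (PB i)).card : ℝ)
      + ((univ.filter fun i => y ∉ W U G (PB i)).card : ℝ) = b := by
      rw [hb]; exact_mod_cast h
    unfold fr
    rw [← hb]
    field_simp
    linarith
  -- the sum over all tuples
  have hsum : (N : ℝ) * ∑ fg : (Fin h1 → ιA) × (Fin h2 → ιB),
      (((tupSet fg.1 fg.2).biUnion (fun i => W U G (Sum.elim PA PB i))).card : ℝ)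
      ≤ a ^ h1 * b ^ h2 * ((N + 1) * k) := by
    rw [mul_sum]
    calc ∑ fg : (Fin h1 → ιA) × (Fin h2 → ιB), (N : ℝ) *
          (((tupSet fg.1 fg.2).biUnion (fun i => W U G (Sum.elim PA PB i))).card : ℝ)
        ≤ ∑ _fg : (Fin h1 → ιA) × (Fin h2 → ιB), ((N + 1) * k : ℝ) := by
          refine sum_le_sum fun fg _ => ?_
          exact_mod_cast hs fg.1 fg.2
      _ = a ^ h1 * b ^ h2 * ((N + 1) * k) := by
          rw [sum_const, card_univ, nsmul_eq_mul, Fintype.card_prod, Fintype.card_fun,
            Fintype.card_fun, Fintype.card_fin, Fintype.card_fin]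
          push_cast
          rfl
  have hcard : ∀ fg : (Fin h1 → ιA) × (Fin h2 → ιB),
      (((tupSet fg.1 fg.2).biUnion (fun i => W U G (Sum.elim PA PB i))).card : ℝ)
      = ∑ y ∈ U, if y ∈ (tupSet fg.1 fg.2).biUnion (fun i => W U G (Sum.elim PA PB i))
          then (1 : ℝ) else 0 := by
    intro fg
    rw [sum_boole]
    congr 2
    ext y
    rw [mem_filter]
    constructor
    · intro h
      refine ⟨?_, h⟩
      rw [mem_biUnion] at h
      obtain ⟨i, -, hi⟩ := h
      exact W_subset hi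
    · exact fun h => h.2
  simp_rw [hcard] at hsum
  rw [sum_comm] at hsum
  have hy : ∀ y, ∑ fg : (Fin h1 → ιA) × (Fin h2 → ιB),
      (if y ∈ (tupSet fg.1 fg.2).biUnion (fun i => W U G (Sum.elim PA PB i))
          then (1 : ℝ) else 0)
      = a ^ h1 * b ^ h2 * (1 - (1 - fr U G PA y) ^ h1 * (1 - fr U G PB y) ^ h2) := by
    intro y
    have h := card_filter_add_card_filter_not (s := (univ : Finset ((Fin h1 → ιA) × (Fin h2 → ιB))))
      (fun fg => y ∈ (tupSet fg.1 fg.2).biUnion (fun i => W U G (Sum.elim PA PB i)))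
    rw [card_avoid, card_univ, Fintype.card_prod, Fintype.card_fun,
            Fintype.card_fun, Fintype.card_fin, Fintype.card_fin] at h
    have h' := congrArg (fun n : ℕ => (n : ℝ)) h
    push_cast at h'
    rw [hfa, hfb, ← ha, ← hb] at h'
    rw [sum_boole]
    rw [mul_pow, mul_pow] at h'
    linarith
  simp_rw [hy] at hsum
  rw [← mul_sum] at hsum
  have h0 : 0 < a ^ h1 * b ^ h2 := by positivity
  have h2 : a ^ h1 * b ^ h2 * (N * ∑ y ∈ U, (1 - (1 - fr U G PA y) ^ h1 *
      (1 - fr U G PB y) ^ h2)) ≤ a ^ h1 * b ^ h2 * ((N + 1) * k) := by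
    calc _ = _ := by ring
      _ ≤ _ := hsum
  exact le_of_mul_le_mul_left h2 h0

/-- The double counting inequality. -/
theorem double {k N h1 h2 : ℕ} [Nonempty ιA] [Nonempty ιB] (PA : ιA → Finset α)
    (PB : ιB → Finset α) (hs : Sat U G k (h1 + h2) N (Sum.elim PA PB)) :
    (N : ℝ) * ∑ y ∈ U, (1 - (1 - fr U G PA y) ^ h1 * (1 - fr U G PB y) ^ h2)
      ≤ (N + 1) * k :=
  double_tup PA PB fun f g => hs _ (tupSet_card f g)

/-- The double counting inequality for one family of parts. -/
theorem double1 {k N h : ℕ} [Nonempty ιA] (PA : ιA → Finset α) (hs : Sat U G k h N PA) :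
    (N : ℝ) * ∑ y ∈ U, (1 - (1 - fr U G PA y) ^ h) ≤ (N + 1) * k := by
  have h1 := double_tup (h1 := h) (h2 := 0) (k := k) (N := N) (U := U) (G := G) PA
    (fun _ : Unit => (∅ : Finset α)) (fun f g => by
      refine le_trans (Nat.mul_le_mul_left N (card_le_card ?_)) (hs (univ.image f) ?_)
      · intro y hy
        rw [mem_tup] at hy
        rcases hy with ⟨i, hi⟩ | ⟨i, -⟩
        · exact mem_biUnion.mpr ⟨f i, mem_image_of_mem f (mem_univ i), hi⟩
        · exact i.elim0
      · exact card_image_le.trans (by simp))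
  simpa using h1

/-- Saturation of the joint family gives saturation of the first family. -/
lemma Sat.left {k h N : ℕ} {PA : ιA → Finset α} {PB : ιB → Finset α}
    (hs : Sat U G k h N (Sum.elim PA PB)) : Sat U G k h N PA := by
  intro S hS
  refine le_trans (Nat.mul_le_mul_left N (card_le_card ?_))
    (hs (S.image Sum.inl) (card_image_le.trans hS))
  intro y hy
  rw [mem_biUnion] at hy ⊢
  obtain ⟨i, hi, hy⟩ := hy
  exact ⟨Sum.inl i, mem_image_of_mem _ hi, hy⟩

lemma Cov.left {PA : ιA → Finset α} {PB : ιB → Finset α}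
    (hs : Cov G (Sum.elim PA PB)) : Cov G PA := fun i => hs (Sum.inl i)

lemma Cov.right {PA : ιA → Finset α} {PB : ιB → Finset α}
    (hs : Cov G (Sum.elim PA PB)) : Cov G PB := fun i => hs (Sum.inr i)

end double

end Pool.Agent.helper94.PT
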