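import Mathlib

/-!
Pair transversals (MP_c8567d_co): the sets `W U G P`, saturation, double counting.
-/

set_option linter.unusedSectionVars false

namespace Pool.Agent.helper94.PT

open Finset

variable {α : Type*} [DecidableEq α]

/-- Elements of `U` lying in every member of `G` that avoids `P`. -/
def W (U : Finset α) (G : Finset (Finset α)) (P : Finset α) : Finset α :=
  U.filter (fun y => ∀ A ∈ G, Disjoint P A → y ∈ A)

/-- Every set of at most `t` elements is avoided by a member of `F`. -/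
def Big (F : Finset (Finset α)) (t : ℕ) : Prop :=
  ∀ T : Finset α, T.card ≤ t → ∃ A ∈ F, Disjoint T A

/-- A member of `G` misses both `x` and `y`. -/
def Miss (G : Finset (Finset α)) (x y : α) : Prop := ∃ A ∈ G, x ∉ A ∧ y ∉ A

variable {U P Q A : Finset α} {F G G' : Finset (Finset α)}

lemma mem_W {y : α} : y ∈ W U G P ↔ y ∈ U ∧ ∀ A ∈ G, Disjoint P A → y ∈ A := by
  simp [W]

lemma W_subset : W U G P ⊆ U := filter_subset _ _

lemma W_anti (h : G ⊆ G') : W U G' P ⊆ W U G P := by
  intro y hy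
  rw [mem_W] at hy ⊢
  exact ⟨hy.1, fun A hA => hy.2 A (h hA)⟩

lemma W_subset_of_mem (hA : A ∈ G) (hd : Disjoint P A) : W U G P ⊆ A := by
  intro y hy
  exact (mem_W.mp hy).2 A hA hd

lemma Miss.symm {x y : α} (h : Miss G x y) : Miss G y x := by
  obtain ⟨A, hA, h1, h2⟩ := h
  exact ⟨A, hA, h2, h1⟩

lemma Miss.mono {x y : α} (h : Miss G x y) (hG : G ⊆ G') : Miss G' x y := by
  obtain ⟨A, hA, h1, h2⟩ := h
  exact ⟨A, hG hA, h1, h2⟩

lemma miss_of_notMem_W {x y : α} (hx : x ∈ P) (hyU : y ∈ U) (hy : y ∉ W U G P) : Miss G x y := by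
  rw [mem_W] at hy
  push Not at hy
  obtain ⟨A, hA, hd, hyA⟩ := hy hyU
  exact ⟨A, hA, disjoint_left.mp hd hx, hyA⟩

section sat

variable {ι : Type*} [Fintype ι] [DecidableEq ι]

/-- Every set of the family is avoided by a member of `G`. -/
def Cov (G : Finset (Finset α)) (P : ι → Finset α) : Prop := ∀ i, ∃ A ∈ G, Disjoint (P i) A

/-- The union of at most `h` sets `W (P i)` has at most `(1 + 1/N) k` elements. -/
def Sat (U : Finset α) (G : Finset (Finset α)) (k h N : ℕ) (P : ι → Finset α) : Prop :=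
  ∀ S : Finset ι, S.card ≤ h → N * (S.biUnion fun i => W U G (P i)).card ≤ (N + 1) * k

lemma Cov.mono {P : ι → Finset α} (h : Cov G P) (hG : G ⊆ G') : Cov G' P := fun i => by
  obtain ⟨A, hA, hd⟩ := h i
  exact ⟨A, hG hA, hd⟩

lemma Sat.mono {k h N : ℕ} {P : ι → Finset α} (hs : Sat U G k h N P) (hG : G ⊆ G') :
    Sat U G' k h N P := fun S hS =>
  (Nat.mul_le_mul_left N (card_le_card (biUnion_mono fun _ _ => W_anti hG))).trans (hs S hS)

lemma exists_cov {t : ℕ} (hF : Big F t) (hG : G ⊆ F) {P : ι → Finset α}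
    (hP : ∀ i, (P i).card ≤ t) :
    ∃ G', G ⊆ G' ∧ G' ⊆ F ∧ G'.card ≤ G.card + Fintype.card ι ∧ Cov G' P := by
  choose f hfF hfd using fun i => hF (P i) (hP i)
  refine ⟨G ∪ univ.image f, subset_union_left, union_subset hG ?_, ?_, ?_⟩
  · intro A hA
    obtain ⟨i, -, rfl⟩ := mem_image.mp hA
    exact hfF i
  · refine (card_union_le _ _).trans (Nat.add_le_add_left ?_ _)
    exact card_image_le.trans (by rw [card_univ])
  · intro i
    exact ⟨f i, mem_union_right _ (mem_image_of_mem _ (mem_univ i)), hfd i⟩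

lemma sat_step {k h N t p : ℕ} (hF : Big F t) (hk : ∀ A ∈ F, A.card = k) {P : ι → Finset α}
    (hP : ∀ i, (P i).card ≤ p) (hp : h * p ≤ t) :
    ∀ (s : ℕ) (G : Finset (Finset α)), G ⊆ F → N * (∑ i, (W U G (P i)).card) ≤ s * k →
      ∃ G', G ⊆ G' ∧ G' ⊆ F ∧ G'.card ≤ G.card + s ∧ Sat U G' k h N P := by
  intro s
  induction s with
  | zero =>
    intro G hG h0
    refine ⟨G, Subset.refl _, hG, le_rfl, fun S hS => ?_⟩
    have h1 : (S.biUnion fun i => W U G (P i)).card ≤ ∑ i, (W U G (P i)).card :=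
      card_biUnion_le.trans (sum_le_sum_of_subset (subset_univ S))
    calc N * (S.biUnion fun i => W U G (P i)).card ≤ N * ∑ i, (W U G (P i)).card :=
          Nat.mul_le_mul_left _ h1
      _ ≤ 0 * k := h0
      _ ≤ (N + 1) * k := by simp
  | succ s ih =>
    intro G hG h0
    by_cases hs : Sat U G k h N P
    · exact ⟨G, Subset.refl _, hG, Nat.le_add_right _ _, hs⟩
    · unfold Sat at hs
      push Not at hs
      obtain ⟨S, hS, hlt⟩ := hs
      obtain ⟨A, hAF, hAd⟩ := hF (S.biUnion P) (by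
        calc (S.biUnion P).card ≤ ∑ i ∈ S, (P i).card := card_biUnion_le
          _ ≤ ∑ i ∈ S, p := sum_le_sum fun i _ => hP i
          _ = S.card * p := by rw [sum_const, smul_eq_mul]
          _ ≤ h * p := Nat.mul_le_mul_right _ hS
          _ ≤ t := hp)
      have hAi : ∀ i ∈ S, Disjoint (P i) A := fun i hi =>
        disjoint_of_subset_left (subset_biUnion_of_mem P hi) hAd
      set G1 := insert A G with hG1
      have hsub : G ⊆ G1 := subset_insert _ _
      have hW : ∀ i, (W U G1 (P i)).card + (W U G (P i) \ W U G1 (P i)).card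
          = (W U G (P i)).card := fun i => by
        rw [add_comm]; exact card_sdiff_add_card_eq_card (W_anti hsub)
      have hdrop : (S.biUnion fun i => W U G (P i)) \ A ⊆
          univ.biUnion fun i => W U G (P i) \ W U G1 (P i) := by
        intro y hy
        rw [mem_sdiff, mem_biUnion] at hy
        obtain ⟨⟨i, hi, hyi⟩, hyA⟩ := hy
        rw [mem_biUnion]
        refine ⟨i, mem_univ _, mem_sdiff.mpr ⟨hyi, fun hy1 => hyA ?_⟩⟩
        exact W_subset_of_mem (mem_insert_self _ _) (hAi i hi) hy1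
      have h1 : (S.biUnion fun i => W U G (P i)).card ≤
          k + ∑ i, (W U G (P i) \ W U G1 (P i)).card := by
        have h2 := card_le_card_sdiff_add_card (t := A) (s := S.biUnion fun i => W U G (P i))
        have h3 := (card_le_card hdrop).trans card_biUnion_le
        rw [hk A hAF] at h2
        omega
      have h4 : ∑ i, (W U G1 (P i)).card + ∑ i, (W U G (P i) \ W U G1 (P i)).card
          = ∑ i, (W U G (P i)).card := by
        rw [← sum_add_distrib]
        exact sum_congr rfl fun i _ => hW i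
      obtain ⟨G', h5, h6, h7, h8⟩ := ih G1 (insert_subset hAF hG) (by
        have e1 : (N + 1) * k < N * (k + ∑ i, (W U G (P i) \ W U G1 (P i)).card) :=
          lt_of_lt_of_le hlt (Nat.mul_le_mul_left _ h1)
        rw [← h4] at h0
        rw [mul_add] at h0 e1
        rw [add_mul] at h0 e1
        omega)
      refine ⟨G', hsub.trans h5, h6, h7.trans ?_, h8⟩
      have : G1.card ≤ G.card + 1 := card_insert_le A G
      omega

/-- Saturation. -/
theorem exists_sat {k h N t p : ℕ} (hF : Big F t) (hk : ∀ A ∈ F, A.card = k) (hG : G ⊆ F)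
    {P : ι → Finset α} (hP : ∀ i, (P i).card ≤ p) (hp : h * p ≤ t) (hpt : p ≤ t) :
    ∃ G', G ⊆ G' ∧ G' ⊆ F ∧ G'.card ≤ G.card + (N + 1) * Fintype.card ι ∧ Cov G' P ∧
      Sat U G' k h N P := by
  obtain ⟨G1, h1, h2, h3, h4⟩ := exists_cov hF hG (P := P) fun i => (hP i).trans hpt
  obtain ⟨G2, h5, h6, h7, h8⟩ := sat_step (U := U) (N := N) hF hk hP hp
    (N * Fintype.card ι) G1 h2 (by
      have : ∑ i, (W U G1 (P i)).card ≤ Fintype.card ι * k := by
        calc ∑ i, (W U G1 (P i)).card ≤ ∑ _i : ι, k := sum_le_sum fun i _ => by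
              obtain ⟨A, hA, hd⟩ := h4 i
              rw [← hk A (h2 hA)]
              exact card_le_card (W_subset_of_mem hA hd)
          _ = Fintype.card ι * k := by rw [sum_const, smul_eq_mul, card_univ]
      calc N * ∑ i, (W U G1 (P i)).card ≤ N * (Fintype.card ι * k) := Nat.mul_le_mul_left _ this
        _ = N * Fintype.card ι * k := by ring)
  refine ⟨G2, h1.trans h5, h6, ?_, h4.mono h5, h8⟩
  rw [add_mul]
  omega

end sat

end Pool.Agent.helper94.PT
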