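import Pool.Agent.helper94.PT.Iter
import Pool.Agent.helper14.Kumar.Short

/-!
Coverings of the pairs of a finite set by blocks (affine planes of prime order).
-/

namespace Pool.Agent.helper94.PT

open Finset

variable {α : Type*} [DecidableEq α]

theorem design_q {q : ℕ} (hq : q.Prime) (Z : Finset α) {m : ℕ} (hZ : Z.card ≤ q ^ 2 * m) :
    ∃ D : Finset (Finset α), D.card ≤ q ^ 2 + q ∧ (∀ B ∈ D, B.card ≤ q * m) ∧
      ∀ x ∈ Z, ∀ y ∈ Z, ∃ B ∈ D, x ∈ B ∧ y ∈ B := by
  haveI : Fact q.Prime := ⟨hq⟩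
  haveI : NeZero q := ⟨hq.ne_zero⟩
  obtain ⟨P, hP, hcov⟩ := exists_parts Z hZ
  have hcard : Fintype.card (Fin (q ^ 2)) = Fintype.card (ZMod q × ZMod q) := by
    rw [Fintype.card_fin, Fintype.card_prod, ZMod.card, sq]
  let e : Fin (q ^ 2) ≃ ZMod q × ZMod q := Fintype.equivOfCardEq hcard
  have hex : ∀ x : α, ∃ i : Fin (q ^ 2), x ∈ Z → x ∈ P i := by
    intro x
    by_cases hx : x ∈ Z
    · obtain ⟨i, hi⟩ := hcov x hx
      exact ⟨i, fun _ => hi⟩
    · exact ⟨⟨0, by have := hq.pos; positivity⟩, fun h => absurd h hx⟩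
  choose f hf using hex
  set c : α → ZMod q × ZMod q := fun x => e (f x) with hc
  have hfib : ∀ v : ZMod q × ZMod q, (Z.filter fun x => c x = v).card ≤ m := by
    intro v
    refine (card_le_card ?_).trans (hP (e.symm v))
    intro x hx
    rw [mem_filter] at hx
    have h1 := hf x hx.1
    have h2 : f x = e.symm v := by rw [← hx.2, hc]; simp
    rw [← h2]
    exact h1
  -- a set of `q` classes
  have hblock : ∀ L : Finset (ZMod q × ZMod q), L.card ≤ q →
      (Z.filter fun x => c x ∈ L).card ≤ q * m := by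
    intro L hL
    have h1 : (Z.filter fun x => c x ∈ L) = L.biUnion fun v => Z.filter fun x => c x = v := by
      ext x
      simp only [mem_filter, mem_biUnion]
      constructor
      · rintro ⟨h1, h2⟩
        exact ⟨c x, h2, h1, rfl⟩
      · rintro ⟨v, hv, h1, h2⟩
        exact ⟨h1, h2 ▸ hv⟩
    rw [h1]
    calc _ ≤ ∑ v ∈ L, (Z.filter fun x => c x = v).card := card_biUnion_le
      _ ≤ ∑ _v ∈ L, m := sum_le_sum fun v _ => hfib v
      _ = L.card * m := by rw [sum_const, smul_eq_mul]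
      _ ≤ q * m := Nat.mul_le_mul_right _ hL
  let line : ZMod q × ZMod q → Finset (ZMod q × ZMod q) := fun ab =>
    univ.image fun s : ZMod q => (s, ab.1 * s + ab.2)
  let vert : ZMod q → Finset (ZMod q × ZMod q) := fun a => univ.image fun s : ZMod q => (a, s)
  let D : Finset (Finset α) :=
    (univ.image fun ab : ZMod q × ZMod q => Z.filter fun x => c x ∈ line ab) ∪
      (univ.image fun a : ZMod q => Z.filter fun x => c x ∈ vert a)
  refine ⟨D, ?_, ?_, ?_⟩
  · refine (card_union_le _ _).trans (Nat.add_le_add ?_ ?_)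
    · refine card_image_le.trans ?_
      rw [card_univ, Fintype.card_prod, ZMod.card, sq]
    · refine card_image_le.trans ?_
      rw [card_univ, ZMod.card]
  · intro B hB
    rcases mem_union.mp hB with h | h
    · obtain ⟨ab, -, rfl⟩ := mem_image.mp h
      apply hblock
      exact card_image_le.trans (by rw [card_univ, ZMod.card])
    · obtain ⟨a, -, rfl⟩ := mem_image.mp h
      apply hblock
      exact card_image_le.trans (by rw [card_univ, ZMod.card])
  · intro x hx y hy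
    by_cases hxy : (c x).1 = (c y).1
    · refine ⟨Z.filter fun z => c z ∈ vert (c x).1, mem_union_right _ (mem_image_of_mem _
        (mem_univ _)), mem_filter.mpr ⟨hx, ?_⟩, mem_filter.mpr ⟨hy, ?_⟩⟩
      · exact mem_image.mpr ⟨(c x).2, mem_univ _, rfl⟩
      · exact mem_image.mpr ⟨(c y).2, mem_univ _, by rw [hxy]⟩
    · have hne : (c y).1 - (c x).1 ≠ 0 := sub_ne_zero.mpr fun h => hxy h.symm
      set a := ((c y).2 - (c x).2) / ((c y).1 - (c x).1) with ha
      set b := (c x).2 - a * (c x).1 with hb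
      refine ⟨Z.filter fun z => c z ∈ line (a, b), mem_union_left _ (mem_image_of_mem _
        (mem_univ _)), mem_filter.mpr ⟨hx, ?_⟩, mem_filter.mpr ⟨hy, ?_⟩⟩
      · refine mem_image.mpr ⟨(c x).1, mem_univ _, ?_⟩
        apply Prod.ext
        · rfl
        · show a * (c x).1 + b = (c x).2
          rw [hb]; ring
      · refine mem_image.mpr ⟨(c y).1, mem_univ _, ?_⟩
        apply Prod.ext
        · rfl
        · show a * (c y).1 + b = (c y).2
          have h1 : a * ((c y).1 - (c x).1) = (c y).2 - (c x).2 := by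
            rw [ha]; field_simp
          rw [hb]
          linear_combination h1

lemma exists_prime_window {N : ℕ} (hN : 1 ≤ N) : ∃ x0 : ℕ, N ≤ x0 ∧ ∀ x : ℝ, (x0 : ℝ) ≤ x →
    ∃ q : ℕ, q.Prime ∧ x ≤ q ∧ (q : ℝ) ≤ (1 + 1 / N) * x := by
  have hN1 : (1 : ℝ) ≤ N := by exact_mod_cast hN
  have hN0 : (0 : ℝ) < N := by linarith
  obtain ⟨M, hM⟩ := Pool.Agent.helper14.Kumar.exists_prime_short
    (ε := 1 / (4 * (N : ℝ))) (by positivity)
  refine ⟨max (max M N) (4 * N), by omega, fun x hx => ?_⟩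
  have hx1 : (M : ℝ) ≤ x := le_trans (by exact_mod_cast (by omega)) hx
  have hx2 : (4 * N : ℝ) ≤ x := le_trans (by exact_mod_cast (by omega)) hx
  have hx0 : 0 < x := by linarith
  have hy0 : 0 ≤ (1 + 1 / (N : ℝ)) * x := by positivity
  obtain ⟨q, hq, hle, hlt⟩ := hM ⌊(1 + 1 / (N : ℝ)) * x⌋₊ (by
    apply Nat.le_floor
    have : (0 : ℝ) ≤ 1 / N * x := by positivity
    linarith)
  refine ⟨q, hq, ?_, ?_⟩
  · have h1 : (1 + 1 / (N : ℝ)) * x - 1 < ⌊(1 + 1 / (N : ℝ)) * x⌋₊ := Nat.sub_one_lt_floor _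
    have h2 : (0 : ℝ) < 1 - 1 / (4 * (N : ℝ)) := by
      have : 1 / (4 * (N : ℝ)) ≤ 1 / 4 := by
        apply div_le_div_of_nonneg_left (by norm_num) (by norm_num) (by linarith)
      linarith
    have h3 : (1 - 1 / (4 * (N : ℝ))) * ((1 + 1 / (N : ℝ)) * x - 1)
        < (1 - 1 / (4 * (N : ℝ))) * ⌊(1 + 1 / (N : ℝ)) * x⌋₊ :=
      mul_lt_mul_of_pos_left h1 h2
    have h4 : x ≤ (1 - 1 / (4 * (N : ℝ))) * ((1 + 1 / (N : ℝ)) * x - 1) := by
      have h5 : (1 - 1 / (4 * (N : ℝ))) * ((1 + 1 / (N : ℝ)) * x - 1)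
          = x + (3 / (4 * N) - 1 / (4 * N ^ 2)) * x - 1 + 1 / (4 * N) := by
        field_simp
        ring
      rw [h5]
      have h6 : 1 / (4 * (N : ℝ)) ≤ 3 / (4 * N) - 1 / (4 * N ^ 2) := by
        rw [div_sub_div _ _ (by positivity) (by positivity), div_le_div_iff₀ (by positivity)
          (by positivity)]
        nlinarith [mul_pos hN0 hN0, mul_pos (mul_pos hN0 hN0) hN0,
          mul_nonneg (mul_pos hN0 hN0).le (sub_nonneg.mpr hN1)]
      have h7 : 1 ≤ 1 / (4 * (N : ℝ)) * x := by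
        rw [one_div_mul_eq_div, le_div_iff₀ (by positivity)]
        linarith
      have h8 : 1 / (4 * (N : ℝ)) * x ≤ (3 / (4 * N) - 1 / (4 * N ^ 2)) * x :=
        mul_le_mul_of_nonneg_right h6 hx0.le
      have h9 : (0 : ℝ) < 1 / (4 * N) := by positivity
      linarith
    linarith
  · exact le_trans (by exact_mod_cast hle) (Nat.floor_le hy0)

theorem design {N : ℕ} (hN : 2 ≤ N) : ∃ x0 : ℕ, ∀ {α : Type*} [DecidableEq α] (Z : Finset α)
    (t : ℕ), 1 ≤ t → 2 * N * x0 ≤ t → 3 * N * Z.card ≤ t ^ 2 → ∃ D : Finset (Finset α),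
      (∀ B ∈ D, B.card ≤ t) ∧ (∀ x ∈ Z, ∀ y ∈ Z, ∃ B ∈ D, x ∈ B ∧ y ∈ B) ∧
      (D.card : ℝ) ≤ (1 + 1 / N) ^ 3 * (((Z.card : ℝ) / t) ^ 2 / (1 - 1 / N) ^ 2 + x0 ^ 2) := by
  have hNr : (2 : ℝ) ≤ N := by exact_mod_cast hN
  have hN0 : (0 : ℝ) < N := by linarith
  obtain ⟨x0, hx0, hwin⟩ := exists_prime_window (N := N) (by omega)
  refine ⟨x0, fun Z t ht h1 h2 => ?_⟩
  have ht0 : (0 : ℝ) < t := by exact_mod_cast ht
  have hinv : 1 / (N : ℝ) ≤ 1 / 2 := div_le_div_of_nonneg_left (by norm_num) (by norm_num) hNr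
  have hθ : (1 : ℝ) / 2 ≤ 1 - 1 / N := by linarith
  have hz0 : (0 : ℝ) ≤ Z.card := Nat.cast_nonneg _
  set A : ℝ := (Z.card : ℝ) / (t * (1 - 1 / N)) with hA
  have hA0 : 0 ≤ A := by
    rw [hA]
    apply div_nonneg hz0
    exact mul_nonneg ht0.le (by linarith)
  obtain ⟨q, hq, hq1, hq2⟩ := hwin (max A x0) (le_max_right _ _)
  have hqA : A ≤ q := (le_max_left _ _).trans hq1
  have hqx : (x0 : ℝ) ≤ q := (le_max_right _ _).trans hq1
  have hxN : (N : ℝ) ≤ x0 := by exact_mod_cast hx0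
  have hq0 : (0 : ℝ) < q := by linarith
  have hqN : (N : ℝ) ≤ q := by linarith
  obtain ⟨D, hD1, hD2, hD3⟩ := design_q hq Z (m := Z.card / q ^ 2 + 1) (by
    have := Nat.lt_mul_div_succ Z.card (b := q ^ 2) (by have := hq.pos; positivity)
    exact this.le)
  have hfac : 1 + 1 / (N : ℝ) ≤ 3 / 2 := by linarith
  have hqt : (q : ℝ) ≤ t / N := by
    have hq3 : (q : ℝ) ≤ 3 / 2 * max A x0 := hq2.trans
      (mul_le_mul_of_nonneg_right hfac (le_trans hA0 (le_max_left _ _)))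
    refine hq3.trans ?_
    rcases le_total A x0 with h | h
    · rw [max_eq_right h, le_div_iff₀ hN0]
      have h3 : (2 : ℝ) * N * x0 ≤ t := by exact_mod_cast h1
      have h4 : (0 : ℝ) ≤ x0 := Nat.cast_nonneg _
      nlinarith
    · rw [max_eq_left h, le_div_iff₀ hN0]
      have h3 : (3 : ℝ) * N * Z.card ≤ (t : ℝ) ^ 2 := by exact_mod_cast h2
      have h4 : A ≤ 2 * Z.card / t := by
        rw [hA, div_le_div_iff₀ (mul_pos ht0 (by linarith)) ht0]
        nlinarith [mul_nonneg hz0 ht0.le]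
      have h5 : 3 / 2 * A * N ≤ 3 / 2 * (2 * Z.card / t) * N := by
        apply mul_le_mul_of_nonneg_right _ hN0.le
        linarith
      refine h5.trans ?_
      have h6 : 3 / 2 * (2 * (Z.card : ℝ) / t) * N = 3 * N * Z.card / t := by ring
      rw [h6, div_le_iff₀ ht0]
      nlinarith
  refine ⟨D, ?_, hD3, ?_⟩
  · intro B hB
    have h3 := hD2 B hB
    have h4 : ((q * (Z.card / q ^ 2 + 1) : ℕ) : ℝ) ≤ t := by
      push_cast
      have h5 : ((Z.card / q ^ 2 : ℕ) : ℝ) ≤ (Z.card : ℝ) / q ^ 2 := by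
        have := Nat.cast_div_le (α := ℝ) (m := Z.card) (n := q ^ 2)
        push_cast at this
        exact this
      have h6 : (q : ℝ) * (((Z.card / q ^ 2 : ℕ) : ℝ) + 1) ≤ Z.card / q + q := by
        calc (q : ℝ) * (((Z.card / q ^ 2 : ℕ) : ℝ) + 1)
            ≤ q * ((Z.card : ℝ) / q ^ 2 + 1) := by
              apply mul_le_mul_of_nonneg_left _ hq0.le
              linarith
          _ = Z.card / q + q := by field_simp
      have h7 : (Z.card : ℝ) / q ≤ t * (1 - 1 / N) := by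
        rw [div_le_iff₀ hq0]
        rw [hA, div_le_iff₀ (mul_pos ht0 (by linarith))] at hqA
        linarith
      have h8 : (t : ℝ) * (1 - 1 / N) + t / N = t := by field_simp; ring
      linarith
    exact_mod_cast (show (B.card : ℝ) ≤ t from le_trans (by exact_mod_cast h3) h4)
  · have h3 : (D.card : ℝ) ≤ (q : ℝ) ^ 2 + q := by exact_mod_cast hD1
    have h4 : (q : ℝ) ≤ 1 / N * q ^ 2 := by
      rw [one_div_mul_eq_div, le_div_iff₀ hN0]
      nlinarith
    have h5 : (q : ℝ) ^ 2 ≤ (1 + 1 / N) ^ 2 * (max A x0) ^ 2 := by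
      rw [← mul_pow]
      exact pow_le_pow_left₀ hq0.le hq2 2
    have h6 : (max A (x0 : ℝ)) ^ 2 ≤ A ^ 2 + (x0 : ℝ) ^ 2 := by
      rcases le_total A x0 with h | h
      · rw [max_eq_right h]; nlinarith [sq_nonneg A]
      · rw [max_eq_left h]; nlinarith [sq_nonneg (x0 : ℝ)]
    have h7 : A ^ 2 = ((Z.card : ℝ) / t) ^ 2 / (1 - 1 / N) ^ 2 := by
      rw [hA]
      have : (1 : ℝ) - 1 / N ≠ 0 := by linarith
      rw [← div_pow, div_div]
    have h8 : (0 : ℝ) < 1 + 1 / N := by positivity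
    calc (D.card : ℝ) ≤ q ^ 2 + 1 / N * q ^ 2 := by linarith
      _ = (1 + 1 / N) * (q : ℝ) ^ 2 := by ring
      _ ≤ (1 + 1 / N) * ((1 + 1 / N) ^ 2 * (max A x0) ^ 2) :=
          mul_le_mul_of_nonneg_left h5 h8.le
      _ = (1 + 1 / N) ^ 3 * (max A x0) ^ 2 := by ring
      _ ≤ (1 + 1 / N) ^ 3 * (A ^ 2 + (x0 : ℝ) ^ 2) :=
          mul_le_mul_of_nonneg_left h6 (by positivity)
      _ = _ := by rw [h7]

end Pool.Agent.helper94.PT
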