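import Pool.Agent.helper94.PT.Mass

/-!
The direct phase: `W (P i)` is made disjoint from a region `R`.
-/

namespace Pool.Agent.helper94.PT

open Finset

set_option linter.unusedSectionVars false

variable {α : Type*} [DecidableEq α] {U : Finset α} {F G : Finset (Finset α)}

lemma kill_one {p q t : ℕ} (hF : Big F t) (hpq : p + q ≤ t) {P : Finset α} (hP : P.card ≤ p)
    (R : Finset α) :
    ∀ (m : ℕ) (G : Finset (Finset α)), G ⊆ F → (W U G P ∩ R).card ≤ m * q →
      ∃ G', G ⊆ G' ∧ G' ⊆ F ∧ G'.card ≤ G.card + m ∧ W U G' P ∩ R = ∅ := by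
  intro m
  induction m with
  | zero =>
    intro G hG hm
    rw [zero_mul, Nat.le_zero, card_eq_zero] at hm
    exact ⟨G, Subset.refl _, hG, le_rfl, hm⟩
  | succ m ih =>
    intro G hG hm
    obtain ⟨Q, hQ, hQc⟩ := exists_subset_card_eq (s := W U G P ∩ R)
      (n := min q (W U G P ∩ R).card) (min_le_right _ _)
    obtain ⟨A, hAF, hAd⟩ := hF (P ∪ Q) (by
      refine (card_union_le _ _).trans (le_trans (Nat.add_le_add hP ?_) hpq)
      rw [hQc]
      exact min_le_left _ _)
    rw [disjoint_union_left] at hAd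
    have hsub : G ⊆ insert A G := subset_insert _ _
    have h1 : W U (insert A G) P ∩ R ⊆ (W U G P ∩ R) \ Q := by
      intro y hy
      rw [mem_inter] at hy
      rw [mem_sdiff, mem_inter]
      refine ⟨⟨W_anti hsub hy.1, hy.2⟩, fun hyQ => ?_⟩
      exact disjoint_left.mp hAd.2 hyQ (W_subset_of_mem (mem_insert_self _ _) hAd.1 hy.1)
    have h2 := card_le_card h1
    rw [card_sdiff_of_subset hQ, hQc] at h2
    obtain ⟨G', g1, g2, g3, g4⟩ := ih (insert A G) (insert_subset hAF hG) (by
      rw [add_mul, one_mul] at hm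
      rcases le_total q (W U G P ∩ R).card with h | h
      · rw [min_eq_left h] at h2
        omega
      · rw [min_eq_right h] at h2
        omega)
    refine ⟨G', hsub.trans g1, g2, g3.trans ?_, g4⟩
    have h5 : (insert A G).card ≤ G.card + 1 := card_insert_le A G
    omega

theorem direct_phase {n p q t : ℕ} (hF : Big F t) (hq : 1 ≤ q) (hpq : p + q ≤ t)
    {P : Fin n → Finset α} (hP : ∀ i, (P i).card ≤ p) (R : Finset α) (hG : G ⊆ F) :
    ∃ G', G ⊆ G' ∧ G' ⊆ F ∧ (∀ i, W U G' (P i) ∩ R = ∅) ∧
      G'.card * q ≤ G.card * q + ∑ i, (W U G (P i) ∩ R).card + n * q := by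
  -- for a set of indices
  have key : ∀ S : Finset (Fin n), ∃ G', G ⊆ G' ∧ G' ⊆ F ∧ (∀ i ∈ S, W U G' (P i) ∩ R = ∅) ∧
      G'.card * q ≤ G.card * q + ∑ i ∈ S, ((W U G (P i) ∩ R).card + q) := by
    intro S
    induction S using Finset.induction_on with
    | empty => exact ⟨G, Subset.refl _, hG, fun i hi => absurd hi (notMem_empty i), by simp⟩
    | insert a S ha ih =>
      obtain ⟨G1, h1, h2, h3, h4⟩ := ih
      obtain ⟨G2, g1, g2, g3, g4⟩ := kill_one (U := U) hF hpq (hP a) R
        ((W U G1 (P a) ∩ R).card / q + 1) G1 h2 (by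
          have := Nat.lt_mul_div_succ (W U G1 (P a) ∩ R).card hq
          rw [mul_comm] at this
          exact this.le)
      refine ⟨G2, h1.trans g1, g2, ?_, ?_⟩
      · intro i hi
        rcases mem_insert.mp hi with rfl | hi
        · exact g4
        · have h5 := h3 i hi
          rw [← subset_empty] at h5 ⊢
          exact (inter_subset_inter_right (W_anti g1)).trans h5
      · rw [sum_insert ha]
        have h5 : (W U G1 (P a) ∩ R).card ≤ (W U G (P a) ∩ R).card :=
          card_le_card (inter_subset_inter_right (W_anti h1))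
        have h6 : (W U G1 (P a) ∩ R).card / q * q ≤ (W U G1 (P a) ∩ R).card :=
          Nat.div_mul_le_self _ _
        have h7 := Nat.mul_le_mul_right q g3
        rw [add_mul, add_mul, one_mul] at h7
        omega
  obtain ⟨G', h1, h2, h3, h4⟩ := key univ
  refine ⟨G', h1, h2, fun i => h3 i (mem_univ i), h4.trans (le_of_eq ?_)⟩
  rw [sum_add_distrib, sum_const, card_univ, Fintype.card_fin, smul_eq_mul]
  ring

end Pool.Agent.helper94.PT
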