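import Pool.Agent.helper94.PT.Lower

/-!
The pair-transversal function: definition and asymptotics.
-/

namespace Pool.Agent.helper94.PT

open Finset Filter

/-- The least `m` such that every family of `k`-element sets with property `P_r` has a transversal
with at most `m` elements. -/
noncomputable def f (k r : ℕ) : ℕ := sInf {m | HasBound k r m}

theorem bounds {ε : ℝ} (hε : 0 < ε) : ∃ C : ℝ, ∀ r k : ℕ, C ≤ r → C * r ≤ k →
    (∃ m, HasBound k r m) ∧ (k : ℝ) / √r ≤ f k r ∧ (f k r : ℝ) ≤ (1 + ε) * (k / √r) := by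
  obtain ⟨C, hC1, hC⟩ := upper hε
  refine ⟨C + 1, fun r k hr hk => ?_⟩
  have hr1 : (1 : ℝ) ≤ r := by linarith
  have hr0 : (0 : ℝ) < r := by linarith
  have hk1 : (2 : ℝ) ≤ k := by nlinarith
  have hk2 : 2 ≤ k := by exact_mod_cast hk1
  have h1 := hC r k (by linarith) (by nlinarith)
  have hne : {m | HasBound k r m}.Nonempty := ⟨_, h1⟩
  refine ⟨⟨_, h1⟩, ?_, ?_⟩
  · exact lower hk2 (by exact_mod_cast hr1) (Nat.sInf_mem hne)
  · have h2 : f k r ≤ ⌊(1 + ε) * k / √r⌋₊ := Nat.sInf_le h1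
    calc (f k r : ℝ) ≤ ⌊(1 + ε) * k / √r⌋₊ := by exact_mod_cast h2
      _ ≤ (1 + ε) * k / √r := Nat.floor_le (by positivity)
      _ = (1 + ε) * (k / √r) := by ring

theorem limits {ε : ℝ} (hε : 0 < ε) : ∃ R : ℕ, ∀ r : ℕ, R ≤ r →
    1 / √r ≤ liminf (fun k => (f k r : ℝ) / k) atTop ∧
    limsup (fun k => (f k r : ℝ) / k) atTop ≤ (1 + ε) / √r := by
  obtain ⟨C, hC⟩ := bounds hε
  refine ⟨⌈C⌉₊ + 1, fun r hr => ?_⟩
  have hr' : (⌈C⌉₊ : ℝ) + 1 ≤ r := by exact_mod_cast hr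
  have hCr : C ≤ r := by
    have := Nat.le_ceil C
    linarith
  have hr0 : (0 : ℝ) < r := by
    have : (0 : ℝ) ≤ (⌈C⌉₊ : ℝ) := Nat.cast_nonneg _
    linarith
  have hs : 0 < √(r : ℝ) := Real.sqrt_pos.mpr hr0
  have hev : ∀ᶠ k : ℕ in atTop, 1 / √r ≤ (f k r : ℝ) / k ∧ (f k r : ℝ) / k ≤ (1 + ε) / √r := by
    filter_upwards [eventually_ge_atTop (⌈C * r⌉₊ + 1)] with k hk
    have hk' : ((⌈C * r⌉₊ : ℕ) : ℝ) + 1 ≤ k := by exact_mod_cast hk
    have hk0 : (0 : ℝ) < k := by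
      have : (0 : ℝ) ≤ ((⌈C * r⌉₊ : ℕ) : ℝ) := Nat.cast_nonneg _
      linarith
    obtain ⟨-, h1, h2⟩ := hC r k hCr (by
      have := Nat.le_ceil (C * r)
      linarith)
    constructor
    · rw [le_div_iff₀ hk0]
      calc 1 / √r * k = k / √r := by ring
        _ ≤ f k r := h1
    · rw [div_le_iff₀ hk0]
      calc (f k r : ℝ) ≤ (1 + ε) * (k / √r) := h2
        _ = (1 + ε) / √r * k := by ring
  constructor
  · refine le_liminf_of_le ?_ (hev.mono fun k hk => hk.1)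
    exact isCoboundedUnder_ge_of_eventually_le atTop (hev.mono fun k hk => hk.2)
  · refine limsup_le_of_le ?_ (hev.mono fun k hk => hk.2)
    exact isCoboundedUnder_le_of_eventually_le atTop (hev.mono fun k hk => hk.1)

end Pool.Agent.helper94.PT
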