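import Pool.Agent.helper94.PT.Mass

/-!
Partition into parts, and the iteration which makes the set of frequent elements stable.
-/

namespace Pool.Agent.helper94.PT

open Finset

set_option linter.unusedSectionVars false

variable {α : Type*} [DecidableEq α] {U : Finset α} {F G : Finset (Finset α)}

/-- A set of at most `n p` elements is covered by `n` parts of at most `p` elements. -/
lemma exists_parts (S : Finset α) {n p : ℕ} (h : S.card ≤ n * p) :
    ∃ P : Fin n → Finset α, (∀ i, (P i).card ≤ p) ∧ ∀ x ∈ S, ∃ i, x ∈ P i := by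
  induction n generalizing S with
  | zero =>
    refine ⟨fun i => ∅, fun i => i.elim0, fun x hx => ?_⟩
    rw [zero_mul, Nat.le_zero, card_eq_zero] at h
    rw [h] at hx
    exact absurd hx (notMem_empty x)
  | succ n ih =>
    obtain ⟨Q, hQS, hQc⟩ := exists_subset_card_eq (s := S) (n := min p S.card) (min_le_right _ _)
    have h1 : (S \ Q).card ≤ n * p := by
      rw [card_sdiff_of_subset hQS, hQc]
      rw [add_mul, one_mul] at h
      omega
    obtain ⟨P, hP, hcov⟩ := ih (S \ Q) h1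
    refine ⟨Fin.cons Q P, ?_, ?_⟩
    · intro i
      refine Fin.cases ?_ ?_ i
      · rw [Fin.cons_zero, hQc]
        exact min_le_left _ _
      · intro j
        rw [Fin.cons_succ]
        exact hP j
    · intro x hx
      by_cases hxQ : x ∈ Q
      · exact ⟨0, by rw [Fin.cons_zero]; exact hxQ⟩
      · obtain ⟨i, hi⟩ := hcov x (mem_sdiff.mpr ⟨hx, hxQ⟩)
        exact ⟨i.succ, by rw [Fin.cons_succ]; exact hi⟩

lemma iter_step {k N p nA n0 : ℕ} (hN : 3 ≤ N) (hp : 1 ≤ p) (hF : Big F (N ^ 3 * p))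
    (hk : ∀ A ∈ F, A.card = k) {PA : Fin nA → Finset α} (hPA : ∀ i, (PA i).card ≤ p)
    (hnA : 0 < nA) (A0 : Finset α) (hG : G ⊆ F) (hsat : Sat U G k (N ^ 3) N PA) :
    ∃ (G' : Finset (Finset α)) (nB : ℕ) (PB : Fin nB → Finset α), G ⊆ G' ∧ G' ⊆ F ∧
      (∀ i, (PB i).card ≤ p) ∧ Cov G' (Sum.elim PA PB) ∧
      Sat U G' k (N ^ 3) N (Sum.elim PA PB) ∧
      (∀ y ∈ Hi U U G' PA N \ A0, ∃ i, y ∈ PB i) ∧ n0 ≤ nB ∧
      nB * p ≤ (Hi U U G PA N).card + p + n0 * p ∧
      G'.card ≤ G.card + (N + 1) * (nA + (2 * k / p + 1 + n0)) := by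
  have : Nonempty (Fin nA) := ⟨⟨0, hnA⟩⟩
  have hHi : (Hi U U G PA N).card ≤ 2 * k := card_Hi_le hN hsat
  set B := Hi U U G PA N \ A0 with hB
  have hBc : B.card ≤ (Hi U U G PA N).card := card_le_card sdiff_subset
  set nB := B.card / p + 1 + n0 with hnB
  have hBn : B.card ≤ nB * p := by
    have h1 : B.card < (B.card / p + 1) * p := by
      rw [mul_comm]; exact Nat.lt_mul_div_succ B.card hp
    calc B.card ≤ (B.card / p + 1) * p := h1.le
      _ ≤ nB * p := Nat.mul_le_mul_right _ (Nat.le_add_right _ _)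
  obtain ⟨PB, hPB, hcovB⟩ := exists_parts B hBn
  have hN3 : 1 ≤ N ^ 3 := Nat.one_le_pow _ _ (by omega)
  obtain ⟨G', h1, h2, h3, h4, h5⟩ := exists_sat (U := U) (N := N) (h := N ^ 3) (p := p) hF hk hG
    (P := Sum.elim PA PB) (by
      rintro (i | i)
      · exact hPA i
      · exact hPB i) le_rfl (Nat.le_mul_of_pos_left p hN3)
  refine ⟨G', nB, PB, h1, h2, hPB, h4, h5, ?_, Nat.le_add_left _ _, ?_, ?_⟩
  · intro y hy
    apply hcovB
    rw [hB, mem_sdiff]
    rw [mem_sdiff] at hy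
    exact ⟨Hi_anti h1 hy.1, hy.2⟩
  · have h6 : B.card / p * p ≤ B.card := Nat.div_mul_le_self _ _
    have h7 : nB * p = B.card / p * p + p + n0 * p := by rw [hnB]; ring
    omega
  · refine h3.trans (Nat.add_le_add_left (Nat.mul_le_mul_left _ ?_) _)
    rw [Fintype.card_sum, Fintype.card_fin, Fintype.card_fin]
    have h6 : B.card / p ≤ 2 * k / p := Nat.div_le_div_right (hBc.trans hHi)
    omega

/-- The iteration. -/
theorem exists_iter {k N p nA n0 : ℕ} (hN : 3 ≤ N) (hp : 1 ≤ p) (hF : Big F (N ^ 3 * p))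
    (hk : ∀ A ∈ F, A.card = k) {PA : Fin nA → Finset α} (hPA : ∀ i, (PA i).card ≤ p)
    (hnA : 0 < nA) (A0 : Finset α) :
    ∀ (m : ℕ) (G : Finset (Finset α)), G ⊆ F → Sat U G k (N ^ 3) N PA →
      N * (Hi U U G PA N).card ≤ m * k →
      ∃ (G' : Finset (Finset α)) (nB : ℕ) (PB : Fin nB → Finset α), G ⊆ G' ∧ G' ⊆ F ∧
        (∀ i, (PB i).card ≤ p) ∧ Cov G' (Sum.elim PA PB) ∧
        Sat U G' k (N ^ 3) N (Sum.elim PA PB) ∧
        (∀ y ∈ Hi U U G' PA N \ A0, ∃ i, y ∈ PB i) ∧ n0 ≤ nB ∧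
        N * (nB * p) ≤ N * (Hi U U G' PA N).card + k + N * p + N * (n0 * p) ∧
        G'.card ≤ G.card + (m + 1) * ((N + 1) * (nA + (2 * k / p + 1 + n0))) := by
  intro m
  induction m with
  | zero =>
    intro G hG hsat hm
    obtain ⟨G', nB, PB, h1, h2, h3, h4, h5, h6, h7, h8, h9⟩ :=
      iter_step (U := U) (n0 := n0) hN hp hF hk hPA hnA A0 hG hsat
    refine ⟨G', nB, PB, h1, h2, h3, h4, h5, h6, h7, ?_, ?_⟩
    · have h10 := Nat.mul_le_mul_left N h8
      rw [mul_add, mul_add] at h10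
      rw [zero_mul] at hm
      omega
    · rw [zero_add, one_mul]
      exact h9
  | succ m ih =>
    intro G hG hsat hm
    obtain ⟨G', nB, PB, h1, h2, h3, h4, h5, h6, h7, h8, h9⟩ :=
      iter_step (U := U) (n0 := n0) hN hp hF hk hPA hnA A0 hG hsat
    by_cases hst : N * (Hi U U G PA N).card ≤ N * (Hi U U G' PA N).card + k
    · refine ⟨G', nB, PB, h1, h2, h3, h4, h5, h6, h7, ?_, ?_⟩
      · have h10 := Nat.mul_le_mul_left N h8
        rw [mul_add, mul_add] at h10
        omega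
      · refine h9.trans (Nat.add_le_add_left (Nat.le_mul_of_pos_left _ (by omega)) _)
    · obtain ⟨G2, nB2, PB2, g1, g2, g3, g4, g5, g6, g7, g8, g9⟩ := ih G' h2 h5.left (by
        rw [add_mul] at hm
        omega)
      refine ⟨G2, nB2, PB2, h1.trans g1, g2, g3, g4, g5, g6, g7, g8, g9.trans ?_⟩
      rw [add_mul (m + 1) 1]
      omega

end Pool.Agent.helper94.PT
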