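import Pool.Agent.helper94.PT.Mass

/-!
The Kovari-Sos-Turan phase: frequencies of middle size are destroyed at small cost.
-/

namespace Pool.Agent.helper94.PT

open Finset

set_option linter.unusedSectionVars false

variable {α : Type*} [DecidableEq α] {U : Finset α} {F G : Finset (Finset α)}

/-- the elements of `M` which are in all sets `W (P i)`, `i ∈ S` -/
def com (U : Finset α) (G : Finset (Finset α)) {n : ℕ} (P : Fin n → Finset α) (M : Finset α)
    (S : Finset (Fin n)) : Finset α := M.filter fun y => ∀ i ∈ S, y ∈ W U G (P i)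

theorem kst_phase {n g s p t : ℕ} (hF : Big F t) (hg : 1 ≤ g) (hs : 1 ≤ s)
    (hgs : g * p + s ≤ t) {P : Fin n → Finset α} (hP : ∀ i, (P i).card ≤ p) (M : Finset α) :
    ∀ (m : ℕ) (G : Finset (Finset α)), G ⊆ F → ∑ i, (W U G (P i) ∩ M).card ≤ m →
      ∃ G', G ⊆ G' ∧ G' ⊆ F ∧
        G'.card * (g * s) ≤ G.card * (g * s) + ∑ i, (W U G (P i) ∩ M).card ∧
        ∀ S : Finset (Fin n), S.card = g → (com U G' P M S).card < s := by
  intro m
  induction m using Nat.strong_induction_on with
  | _ m ih =>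
  intro G hG hm
  by_cases hall : ∀ S : Finset (Fin n), S.card = g → (com U G P M S).card < s
  · exact ⟨G, Subset.refl _, hG, Nat.le_add_right _ _, hall⟩
  · push Not at hall
    obtain ⟨S, hS, hsc⟩ := hall
    obtain ⟨Q, hQ, hQc⟩ := exists_subset_card_eq hsc
    obtain ⟨A, hAF, hAd⟩ := hF (S.biUnion P ∪ Q) (by
      refine (card_union_le _ _).trans ?_
      rw [hQc]
      refine le_trans (Nat.add_le_add_right ?_ s) hgs
      calc (S.biUnion P).card ≤ ∑ i ∈ S, (P i).card := card_biUnion_le
        _ ≤ ∑ _i ∈ S, p := sum_le_sum fun i _ => hP i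
        _ = g * p := by rw [sum_const, smul_eq_mul, hS])
    rw [disjoint_union_left] at hAd
    set G1 := insert A G with hG1
    have hsub : G ⊆ G1 := subset_insert _ _
    have hdrop : ∀ i ∈ S, (W U G1 (P i) ∩ M).card + s ≤ (W U G (P i) ∩ M).card := by
      intro i hi
      have hPA : Disjoint (P i) A := disjoint_of_subset_left (subset_biUnion_of_mem P hi) hAd.1
      have h1 : W U G1 (P i) ∩ M ⊆ (W U G (P i) ∩ M) \ Q := by
        intro y hy
        rw [mem_inter] at hy
        rw [mem_sdiff, mem_inter]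
        refine ⟨⟨W_anti hsub hy.1, hy.2⟩, fun hyQ => ?_⟩
        have hyA : y ∈ A := W_subset_of_mem (mem_insert_self _ _) hPA hy.1
        exact disjoint_left.mp hAd.2 hyQ hyA
      have h2 : Q ⊆ W U G (P i) ∩ M := by
        intro y hy
        have h3 := mem_filter.mp (hQ hy)
        exact mem_inter.mpr ⟨h3.2 i hi, h3.1⟩
      have h3 := card_le_card h1
      rw [card_sdiff_of_subset h2, hQc] at h3
      have h4 := card_le_card h2
      rw [hQc] at h4
      omega
    have hmono : ∀ i, (W U G1 (P i) ∩ M).card ≤ (W U G (P i) ∩ M).card := fun i =>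
      card_le_card (inter_subset_inter_right (W_anti hsub))
    have hsum : ∑ i, (W U G1 (P i) ∩ M).card + g * s ≤ ∑ i, (W U G (P i) ∩ M).card := by
      have h1 : g * s = ∑ i, if i ∈ S then s else 0 := by
        rw [sum_ite_mem, univ_inter, sum_const, smul_eq_mul, hS]
      rw [h1, ← sum_add_distrib]
      refine sum_le_sum fun i _ => ?_
      split_ifs with hi
      · exact hdrop i hi
      · exact hmono i
    have hgs1 : 1 ≤ g * s := Nat.mul_pos hg hs
    obtain ⟨G', h1, h2, h3, h4⟩ := ih (∑ i, (W U G1 (P i) ∩ M).card) (by omega) G1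
      (insert_subset hAF hG) le_rfl
    refine ⟨G', hsub.trans h1, h2, h3.trans ?_, h4⟩
    have h5 : G1.card ≤ G.card + 1 := card_insert_le A G
    calc G1.card * (g * s) + ∑ i, (W U G1 (P i) ∩ M).card
        ≤ (G.card + 1) * (g * s) + ∑ i, (W U G1 (P i) ∩ M).card :=
          Nat.add_le_add_right (Nat.mul_le_mul_right _ h5) _
      _ = G.card * (g * s) + (∑ i, (W U G1 (P i) ∩ M).card + g * s) := by ring
      _ ≤ _ := Nat.add_le_add_left hsum _

/-- The number of tuples which are not injective. -/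
lemma card_not_inj (n g : ℕ) (hn : 0 < n) :
    ((univ.filter fun f : Fin g → Fin n => ¬ Function.Injective f).card : ℝ)
      ≤ (n : ℝ) ^ g * ((g : ℝ) ^ 2 / n) := by
  have hn0 : (0 : ℝ) < n := by exact_mod_cast hn
  have h1 : (univ.filter fun f : Fin g → Fin n => Function.Injective f).card
      = n.descFactorial g := by
    rw [← Fintype.card_subtype, Fintype.card_congr (Equiv.subtypeInjectiveEquivEmbedding _ _),
      Fintype.card_embedding_eq, Fintype.card_fin, Fintype.card_fin]
  have h2 := card_filter_add_card_filter_not (s := (univ : Finset (Fin g → Fin n)))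
    (fun f => Function.Injective f)
  rw [h1, card_univ, Fintype.card_fun, Fintype.card_fin, Fintype.card_fin] at h2
  have h3 : ((n.descFactorial g : ℕ) : ℝ)
      + ((univ.filter fun f : Fin g → Fin n => ¬ Function.Injective f).card : ℝ) = (n : ℝ) ^ g := by
    exact_mod_cast h2
  by_cases hgn : g ≤ n
  · have h4 : ((n : ℝ) ^ g) * (1 - (g : ℝ) ^ 2 / n) ≤ (n.descFactorial g : ℕ) := by
      have h5 := Nat.pow_sub_le_descFactorial n g
      have h6 : ((n : ℝ) - g) ^ g ≤ ((n.descFactorial g : ℕ) : ℝ) := by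
        have h7 : (((n + 1 - g : ℕ) : ℝ)) ^ g ≤ ((n.descFactorial g : ℕ) : ℝ) := by
          exact_mod_cast h5
        refine le_trans (pow_le_pow_left₀ ?_ ?_ g) h7
        · have : (g : ℝ) ≤ n := by exact_mod_cast hgn
          linarith
        · rw [Nat.cast_sub (by omega)]
          push_cast
          linarith
      refine le_trans ?_ h6
      have h8 : ((n : ℝ) - g) ^ g = (n : ℝ) ^ g * (1 - g / n) ^ g := by
        rw [← mul_pow]
        congr 1
        field_simp
      rw [h8]
      apply mul_le_mul_of_nonneg_left _ (by positivity)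
      have h9 : (-2 : ℝ) ≤ -((g : ℝ) / n) := by
        have : (g : ℝ) / n ≤ 1 := by
          rw [div_le_one hn0]
          exact_mod_cast hgn
        linarith
      have h10 := one_add_mul_le_pow h9 g
      calc 1 - (g : ℝ) ^ 2 / n = 1 + g * (-(g / n)) := by ring
        _ ≤ (1 + -((g : ℝ) / n)) ^ g := h10
        _ = (1 - g / n) ^ g := by ring
    have h11 : (n : ℝ) ^ g * (1 - (g : ℝ) ^ 2 / n)
        = (n : ℝ) ^ g - (n : ℝ) ^ g * ((g : ℝ) ^ 2 / n) := by ring
    linarith
  · have h4 : (1 : ℝ) ≤ (g : ℝ) ^ 2 / n := by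
      rw [le_div_iff₀ hn0]
      have h5 : (n : ℝ) ≤ g := by exact_mod_cast (not_le.mp hgn).le
      have h6 : (1 : ℝ) ≤ n := by exact_mod_cast hn
      nlinarith
    have h5 : (0 : ℝ) ≤ ((n.descFactorial g : ℕ) : ℝ) := Nat.cast_nonneg _
    have h6 : (0 : ℝ) < (n : ℝ) ^ g := by positivity
    nlinarith

theorem kst_count {n g s : ℕ} (hn : 0 < n) {P : Fin n → Finset α} {M : Finset α}
    (hS : ∀ S : Finset (Fin n), S.card = g → (com U G P M S).card < s) :
    ∑ y ∈ M, fr U G P y ^ g ≤ s + (g : ℝ) ^ 2 / n * M.card := by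
  have hn0 : (0 : ℝ) < n := by exact_mod_cast hn
  have h1 : (n : ℝ) ^ g * ∑ y ∈ M, fr U G P y ^ g
      = ∑ f : Fin g → Fin n, ((M.filter fun y => ∀ j, y ∈ W U G (P (f j))).card : ℝ) := by
    have e1 : ∀ y, (n : ℝ) ^ g * fr U G P y ^ g
        = ((univ.filter fun f : Fin g → Fin n => ∀ j, y ∈ W U G (P (f j))).card : ℝ) := by
      intro y
      have e2 : (univ.filter fun f : Fin g → Fin n => ∀ j, y ∈ W U G (P (f j)))
          = Fintype.piFinset fun _ : Fin g => univ.filter fun i => y ∈ W U G (P i) := by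
        ext f
        simp [Fintype.mem_piFinset]
      rw [e2, Fintype.card_piFinset_const, ← mul_pow]
      unfold fr
      rw [Fintype.card_fin, mul_div_cancel₀ _ hn0.ne']
      push_cast
      rfl
    rw [mul_sum]
    simp_rw [e1, card_filter]
    push_cast
    rw [sum_comm]
  have h2 : ∀ f : Fin g → Fin n, ((M.filter fun y => ∀ j, y ∈ W U G (P (f j))).card : ℝ)
      ≤ s + if ¬ Function.Injective f then (M.card : ℝ) else 0 := by
    intro f
    split_ifs with hf
    · rw [add_zero]
      have h3 := hS (univ.image f) (by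
        rw [card_image_of_injective _ (not_not.mp (by simpa using hf)), card_univ, Fintype.card_fin])
      have h4 : (M.filter fun y => ∀ j, y ∈ W U G (P (f j))) = com U G P M (univ.image f) := by
        unfold com
        congr 1
        ext y
        simp
      rw [h4]
      exact_mod_cast h3.le
    · have h3 : ((M.filter fun y => ∀ j, y ∈ W U G (P (f j))).card : ℝ) ≤ M.card := by
        exact_mod_cast card_filter_le _ _
      have h4 : (0 : ℝ) ≤ s := Nat.cast_nonneg _
      linarith
  have h3 : (n : ℝ) ^ g * ∑ y ∈ M, fr U G P y ^ g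
      ≤ (n : ℝ) ^ g * s + (n : ℝ) ^ g * ((g : ℝ) ^ 2 / n) * M.card := by
    rw [h1]
    refine (sum_le_sum fun f _ => h2 f).trans ?_
    rw [sum_add_distrib, sum_const, card_univ, Fintype.card_fun, Fintype.card_fin,
      Fintype.card_fin, nsmul_eq_mul, ← sum_filter, sum_const, nsmul_eq_mul]
    push_cast
    have h4 := card_not_inj n g hn
    have h5 : (0 : ℝ) ≤ M.card := Nat.cast_nonneg _
    have h6 := mul_le_mul_of_nonneg_right h4 h5
    linarith
  have h4 : (0 : ℝ) < (n : ℝ) ^ g := by positivity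
  have h5 : (n : ℝ) ^ g * ∑ y ∈ M, fr U G P y ^ g
      ≤ (n : ℝ) ^ g * (s + (g : ℝ) ^ 2 / n * M.card) := by
    calc _ ≤ _ := h3
      _ = _ := by ring
  exact le_of_mul_le_mul_left h5 h4

/-- Power mean form. -/
theorem kst_mass {n g s : ℕ} (hn : 0 < n) (hg : 1 ≤ g) {P : Fin n → Finset α} {M : Finset α}
    (hS : ∀ S : Finset (Fin n), S.card = g → (com U G P M S).card < s) :
    (∑ y ∈ M, fr U G P y) ^ g ≤ (M.card : ℝ) ^ (g - 1) * (s + (g : ℝ) ^ 2 / n * M.card) := by
  obtain ⟨g, rfl⟩ : ∃ g', g = g' + 1 := ⟨g - 1, by omega⟩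
  rw [Nat.add_sub_cancel]
  have h1 := kst_count hn hS
  by_cases hM : M = ∅
  · subst hM
    simp only [sum_empty, card_empty, Nat.cast_zero, mul_zero, add_zero]
    rw [zero_pow (Nat.succ_ne_zero g)]
    positivity
  · have hMc : (0 : ℝ) < M.card := by exact_mod_cast card_pos.mpr (nonempty_iff_ne_empty.mpr hM)
    have h2 := pow_sum_div_card_le_sum_pow (s := M) (f := fun y => fr U G P y)
      (fun y _ => fr_nonneg P y) g
    rw [div_le_iff₀ (by positivity)] at h2
    refine h2.trans ?_
    rw [mul_comm]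
    exact mul_le_mul_of_nonneg_left h1 (by positivity)

end Pool.Agent.helper94.PT
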