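import Pool.Agent.helper94.PT.Upper

/-!
The lower bound: all `k`-subsets of a set with `k + m` elements.
-/

namespace Pool.Agent.helper94.PT

open Finset

theorem lower {k r m : ℕ} (hk : 2 ≤ k) (hr : 1 ≤ r) (h : HasBound k r m) :
    (k : ℝ) / √r ≤ m := by
  by_contra hcon
  push Not at hcon
  have hr0 : (0 : ℝ) < r := by exact_mod_cast hr
  have hs : 0 < √(r : ℝ) := Real.sqrt_pos.mpr hr0
  rw [lt_div_iff₀ hs] at hcon
  have h1 : r * m ^ 2 < k ^ 2 := by
    have h2 : ((m : ℝ) * √r) ^ 2 < (k : ℝ) ^ 2 := pow_lt_pow_left₀ hcon (by positivity) (by norm_num)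
    rw [mul_pow, Real.sq_sqrt hr0.le] at h2
    have h3 : (r : ℝ) * (m : ℝ) ^ 2 < (k : ℝ) ^ 2 := by linarith
    exact_mod_cast h3
  obtain ⟨T, hT, h2⟩ := h (Fin (k + m)) {A | A.card = k} (fun A hA => hA) (by
    intro G hG hGc
    by_contra hno
    push Not at hno
    have hsub : (univ : Finset (Fin (k + m))).offDiag ⊆ G.biUnion (fun A => Aᶜ.offDiag) := by
      intro xy hxy
      rw [mem_offDiag] at hxy
      obtain ⟨A, hA, hx, hy⟩ := hno xy.1 xy.2
      rw [mem_biUnion]
      exact ⟨A, hA, mem_offDiag.mpr ⟨mem_compl.mpr hx, mem_compl.mpr hy, hxy.2.2⟩⟩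
    have hcard := (card_le_card hsub).trans card_biUnion_le
    have h3 : ∑ A ∈ G, (Aᶜ.offDiag).card ≤ r * (m * m - m) := by
      calc ∑ A ∈ G, (Aᶜ.offDiag).card ≤ ∑ _A ∈ G, (m * m - m) := by
            refine sum_le_sum fun A hA => ?_
            have hAc : A.card = k := hG hA
            rw [offDiag_card, card_compl, Fintype.card_fin, hAc, Nat.add_sub_cancel_left]
        _ = G.card * (m * m - m) := by rw [sum_const, smul_eq_mul]
        _ ≤ r * (m * m - m) := Nat.mul_le_mul_right _ hGc
    rw [offDiag_card, card_univ, Fintype.card_fin] at hcard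
    have h4 := hcard.trans h3
    rcases Nat.eq_zero_or_pos m with hm | hm
    · subst hm
      simp only [add_zero, mul_zero, Nat.zero_sub, Nat.le_zero] at h4
      have h5 : k < k * k := by nlinarith
      omega
    · have h5 : r * (m * m - m) ≤ r * m ^ 2 := by
        apply Nat.mul_le_mul_left
        rw [sq]
        exact Nat.sub_le _ _
      have h6 : k ^ 2 ≤ (k + m) * (k + m) - (k + m) := by
        have h7 : (k + m) * (k + m) = k ^ 2 + 2 * k * m + m * m := by ring
        have h8 : k + m ≤ 2 * k * m + m * m := by nlinarith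
        omega
      omega)
  have h3 : k ≤ (Tᶜ).card := by
    rw [card_compl, Fintype.card_fin]
    omega
  obtain ⟨A, hA, hAc⟩ := exists_subset_card_eq h3
  obtain ⟨x, hx, hxA⟩ := h2 A hAc
  exact (mem_compl.mp (hA hxA)) hx

end Pool.Agent.helper94.PT
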