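import Pool.Agent.helper94.PT.Count

/-!
Consequences of the double counting inequality: masses of the frequencies.
-/

namespace Pool.Agent.helper94.PT

open Finset

set_option linter.unusedSectionVars false

lemma pow_le_inv {a : ℝ} (h0 : 0 ≤ a) (h1 : a ≤ 1) (m : ℕ) : (1 - a) ^ m ≤ 1 / (1 + m * a) := by
  have h2 : 1 + (m : ℝ) * a ≤ (1 + a) ^ m := one_add_mul_le_pow (by linarith) m
  have h3 : 0 < 1 + (m : ℝ) * a := by positivity
  rw [le_div_iff₀ h3]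
  calc (1 - a) ^ m * (1 + m * a) ≤ (1 - a) ^ m * (1 + a) ^ m :=
        mul_le_mul_of_nonneg_left h2 (pow_nonneg (by linarith) m)
    _ = (1 - a ^ 2) ^ m := by rw [← mul_pow]; ring
    _ ≤ 1 := pow_le_one₀ (by nlinarith) (by nlinarith)

variable {α : Type*} [DecidableEq α] {U : Finset α}

lemma mass_gen {a b : α → ℝ} (ha0 : ∀ y, 0 ≤ a y) (ha1 : ∀ y, a y ≤ 1) (hb0 : ∀ y, 0 ≤ b y)
    (hb1 : ∀ y, b y ≤ 1) {N k : ℕ} (hN : 3 ≤ N)
    (hsum : (N : ℝ) * ∑ y ∈ U, (1 - (1 - a y) ^ (N ^ 3 - N ^ 2) * (1 - b y) ^ (N ^ 2))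
      ≤ (N + 1) * k) {Z L : Finset α} (hZU : Z ⊆ U) (hLU : L ⊆ U) (hd : Disjoint Z L)
    (hZ : ∀ y ∈ Z, 1 / (N : ℝ) ≤ a y ∨ 1 / (N : ℝ) ≤ b y)
    (hL : ∀ y ∈ L, a y ≤ 1 / (N : ℝ) ^ 4) :
    (Z.card : ℝ) + (N : ℝ) ^ 3 * ∑ y ∈ L, a y ≤ (1 + 5 / N) * k := by
  have hNr : (3 : ℝ) ≤ N := by exact_mod_cast hN
  have hN0 : (0 : ℝ) < N := by linarith
  have hle : N ^ 2 ≤ N ^ 3 := Nat.pow_le_pow_right (by omega) (by norm_num)
  have hm1 : ((N ^ 3 - N ^ 2 : ℕ) : ℝ) = (N : ℝ) ^ 3 - (N : ℝ) ^ 2 := by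
    rw [Nat.cast_sub hle]; push_cast; rfl
  set m1 := N ^ 3 - N ^ 2 with hm1d
  have hA0 : ∀ y, 0 ≤ (1 - a y) ^ m1 := fun y => pow_nonneg (by linarith [ha1 y]) _
  have hA1 : ∀ y, (1 - a y) ^ m1 ≤ 1 := fun y =>
    pow_le_one₀ (by linarith [ha1 y]) (by linarith [ha0 y])
  have hB0 : ∀ y, 0 ≤ (1 - b y) ^ (N ^ 2) := fun y => pow_nonneg (by linarith [hb1 y]) _
  have hB1 : ∀ y, (1 - b y) ^ (N ^ 2) ≤ 1 := fun y =>
    pow_le_one₀ (by linarith [hb1 y]) (by linarith [hb0 y])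
  have hterm0 : ∀ y, 0 ≤ 1 - (1 - a y) ^ m1 * (1 - b y) ^ (N ^ 2) := fun y => by
    have := mul_le_one₀ (hA1 y) (hB0 y) (hB1 y)
    linarith
  -- terms of Z
  have hsmall : ∀ (x : ℝ) (m : ℕ), 1 / (N : ℝ) ≤ x → x ≤ 1 → (N : ℝ) * (N - 1) ≤ m →
      (1 - x) ^ m ≤ 1 / N := by
    intro x m hx hx1 hm
    have hx0 : 0 ≤ x := le_trans (by positivity) hx
    refine (pow_le_inv hx0 hx1 m).trans ?_
    rw [div_le_div_iff₀ (by positivity) hN0]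
    have h1 : (N : ℝ) - 1 ≤ m * x := by
      calc (N : ℝ) - 1 = N * (N - 1) * (1 / N) := by field_simp
        _ ≤ m * x := by
          apply mul_le_mul hm hx (by positivity)
          exact Nat.cast_nonneg m
    linarith
  have hZt : ∀ y ∈ Z, 1 - 1 / (N : ℝ) ≤ 1 - (1 - a y) ^ m1 * (1 - b y) ^ (N ^ 2) := by
    intro y hy
    rcases hZ y hy with h | h
    · have h1 := hsmall (a y) m1 h (ha1 y) (by rw [hm1]; nlinarith)
      have h2 : (1 - a y) ^ m1 * (1 - b y) ^ (N ^ 2) ≤ (1 - a y) ^ m1 :=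
        mul_le_of_le_one_right (hA0 y) (hB1 y)
      linarith
    · have h1 := hsmall (b y) (N ^ 2) h (hb1 y) (by push_cast; nlinarith)
      have h2 : (1 - a y) ^ m1 * (1 - b y) ^ (N ^ 2) ≤ (1 - b y) ^ (N ^ 2) :=
        mul_le_of_le_one_left (hB0 y) (hA1 y)
      linarith
  -- terms of L
  have hLt : ∀ y ∈ L, ((N : ℝ) - 1) / (N + 1) * ((N : ℝ) ^ 3 * a y)
      ≤ 1 - (1 - a y) ^ m1 * (1 - b y) ^ (N ^ 2) := by
    intro y hy
    have h1 := pow_le_inv (ha0 y) (ha1 y) m1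
    have h2 : (1 - a y) ^ m1 * (1 - b y) ^ (N ^ 2) ≤ (1 - a y) ^ m1 :=
      mul_le_of_le_one_right (hA0 y) (hB1 y)
    rw [hm1] at h1
    have hc0 : 0 ≤ ((N : ℝ) ^ 3 - N ^ 2) * a y := by
      apply mul_nonneg _ (ha0 y)
      nlinarith [sq_nonneg ((N : ℝ))]
    have hc1 : ((N : ℝ) ^ 3 - N ^ 2) * a y ≤ 1 / N := by
      have h3 : ((N : ℝ) ^ 3 - N ^ 2) * a y ≤ (N : ℝ) ^ 3 * (1 / (N : ℝ) ^ 4) := by
        apply mul_le_mul _ (hL y hy) (ha0 y) (by positivity)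
        nlinarith [sq_nonneg ((N : ℝ))]
      refine h3.trans (le_of_eq ?_)
      field_simp
    set c := ((N : ℝ) ^ 3 - N ^ 2) * a y with hc
    have h4 : ((N : ℝ) - 1) / (N + 1) * ((N : ℝ) ^ 3 * a y) = c * (N / (N + 1)) := by
      rw [hc]; field_simp
    have h5 : c * (N / (N + 1)) ≤ 1 - 1 / (1 + c) := by
      have h6 : 1 - 1 / (1 + c) = c / (1 + c) := by
        field_simp
        ring
      rw [h6, mul_div_assoc', div_le_div_iff₀ (by positivity) (by positivity)]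
      have h7 : c * N ≤ 1 := by
        calc c * N ≤ 1 / N * N := mul_le_mul_of_nonneg_right hc1 hN0.le
          _ = 1 := by field_simp
      nlinarith
    rw [h4]
    linarith
  have hsum2 : (1 - 1 / (N : ℝ)) * Z.card + ((N : ℝ) - 1) / (N + 1) * ((N : ℝ) ^ 3 *
      ∑ y ∈ L, a y) ≤ ∑ y ∈ U, (1 - (1 - a y) ^ m1 * (1 - b y) ^ (N ^ 2)) := by
    calc (1 - 1 / (N : ℝ)) * Z.card + ((N : ℝ) - 1) / (N + 1) * ((N : ℝ) ^ 3 * ∑ y ∈ L, a y)
        = ∑ y ∈ Z, (1 - 1 / (N : ℝ)) + ∑ y ∈ L, ((N : ℝ) - 1) / (N + 1) * ((N : ℝ) ^ 3 * a y) := by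
          rw [sum_const, nsmul_eq_mul, mul_sum, mul_sum]
          ring
      _ ≤ ∑ y ∈ Z, (1 - (1 - a y) ^ m1 * (1 - b y) ^ (N ^ 2))
          + ∑ y ∈ L, (1 - (1 - a y) ^ m1 * (1 - b y) ^ (N ^ 2)) :=
          add_le_add (sum_le_sum hZt) (sum_le_sum hLt)
      _ = ∑ y ∈ Z ∪ L, (1 - (1 - a y) ^ m1 * (1 - b y) ^ (N ^ 2)) := (sum_union hd).symm
      _ ≤ _ := sum_le_sum_of_subset_of_nonneg (union_subset hZU hLU) fun y _ _ => hterm0 y
  have hv0 : 0 ≤ (N : ℝ) ^ 3 * ∑ y ∈ L, a y := by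
    apply mul_nonneg (by positivity)
    exact sum_nonneg fun y _ => ha0 y
  have hz0 : (0 : ℝ) ≤ Z.card := Nat.cast_nonneg _
  set v := (N : ℝ) ^ 3 * ∑ y ∈ L, a y
  set z : ℝ := (Z.card : ℝ)
  set S := ∑ y ∈ U, (1 - (1 - a y) ^ m1 * (1 - b y) ^ (N ^ 2))
  have hk0 : (0 : ℝ) ≤ k := Nat.cast_nonneg _
  -- (N-1)/(N+1) (z + v) ≤ S ≤ (N+1)/N k
  have e1 : ((N : ℝ) - 1) / (N + 1) * z ≤ (1 - 1 / (N : ℝ)) * z := by
    apply mul_le_mul_of_nonneg_right _ hz0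
    have : (1 : ℝ) - 1 / N = (N - 1) / N := by field_simp
    rw [this]
    apply div_le_div_of_nonneg_left (by linarith) hN0 (by linarith)
  have e2 : ((N : ℝ) - 1) / (N + 1) * (z + v) ≤ S := by
    rw [mul_add]; linarith
  have e3 : S ≤ (N + 1) / N * k := by
    rw [div_mul_eq_mul_div, le_div_iff₀ hN0]
    linarith
  have e4 : ((N : ℝ) - 1) / (N + 1) * (z + v) ≤ (N + 1) / N * k := e2.trans e3
  have e5 : ((N : ℝ) - 1) * (z + v) * N ≤ (N + 1) * k * (N + 1) := by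
    rw [div_mul_eq_mul_div, div_mul_eq_mul_div, div_le_div_iff₀ (by positivity) hN0] at e4
    linarith
  have e6 : (1 + 5 / (N : ℝ)) * k = (N + 5) * k / N := by field_simp
  rw [e6, le_div_iff₀ hN0]
  have e7 : ((N : ℝ) + 1) * (N + 1) ≤ (N + 5) * (N - 1) := by nlinarith
  have e8 : ((N : ℝ) - 1) * ((z + v) * N) ≤ (N - 1) * ((N + 5) * k) := by nlinarith
  exact le_of_mul_le_mul_left e8 (by linarith)

lemma mass_gen1 {a : α → ℝ} (ha0 : ∀ y, 0 ≤ a y) (ha1 : ∀ y, a y ≤ 1) {N k : ℕ} (hN : 3 ≤ N)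
    (hsum : (N : ℝ) * ∑ y ∈ U, (1 - (1 - a y) ^ (N ^ 3)) ≤ (N + 1) * k) {Z L : Finset α}
    (hZU : Z ⊆ U) (hLU : L ⊆ U) (hZ : ∀ y ∈ Z, 1 / (N : ℝ) ≤ a y)
    (hL : ∀ y ∈ L, a y ≤ 1 / (N : ℝ)) :
    (Z.card : ℝ) ≤ 2 * k ∧ ∑ y ∈ L, a y ≤ 2 / N * k := by
  have hNr : (3 : ℝ) ≤ N := by exact_mod_cast hN
  have hN0 : (0 : ℝ) < N := by linarith
  have hk0 : (0 : ℝ) ≤ k := Nat.cast_nonneg _
  have hterm0 : ∀ y, 0 ≤ 1 - (1 - a y) ^ (N ^ 3) := fun y => by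
    have : (1 - a y) ^ (N ^ 3) ≤ 1 := pow_le_one₀ (by linarith [ha1 y]) (by linarith [ha0 y])
    linarith
  set S := ∑ y ∈ U, (1 - (1 - a y) ^ (N ^ 3)) with hS
  have hS1 : S ≤ (N + 1) / N * k := by
    rw [div_mul_eq_mul_div, le_div_iff₀ hN0]
    linarith
  constructor
  · have h1 : ∀ y ∈ Z, 1 - 1 / (N : ℝ) ≤ 1 - (1 - a y) ^ (N ^ 3) := by
      intro y hy
      have h2 := pow_le_inv (ha0 y) (ha1 y) (N ^ 3)
      have h3 : 1 / (1 + ((N ^ 3 : ℕ) : ℝ) * a y) ≤ 1 / N := by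
        apply one_div_le_one_div_of_le hN0
        have h4 : ((N ^ 3 : ℕ) : ℝ) * (1 / N) ≤ ((N ^ 3 : ℕ) : ℝ) * a y :=
          mul_le_mul_of_nonneg_left (hZ y hy) (by positivity)
        have h5 : ((N ^ 3 : ℕ) : ℝ) * (1 / N) = (N : ℝ) ^ 2 := by
          push_cast; field_simp
        nlinarith
      linarith
    have h2 : (1 - 1 / (N : ℝ)) * Z.card ≤ S := by
      calc (1 - 1 / (N : ℝ)) * Z.card = ∑ y ∈ Z, (1 - 1 / (N : ℝ)) := by
            rw [sum_const, nsmul_eq_mul]; ring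
        _ ≤ ∑ y ∈ Z, (1 - (1 - a y) ^ (N ^ 3)) := sum_le_sum h1
        _ ≤ S := sum_le_sum_of_subset_of_nonneg hZU fun y _ _ => hterm0 y
    have h3 := h2.trans hS1
    have h4 : (1 : ℝ) - 1 / N = (N - 1) / N := by field_simp
    rw [h4, div_mul_eq_mul_div, div_mul_eq_mul_div, div_le_div_iff_of_pos_right hN0] at h3
    have h5 : ((N : ℝ) + 1) ≤ 2 * (N - 1) := by linarith
    have h6 : ((N : ℝ) - 1) * Z.card ≤ (N - 1) * (2 * k) := by nlinarith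
    exact le_of_mul_le_mul_left h6 (by linarith)
  · have h1 : ∀ y ∈ L, (N : ℝ) ^ 3 / (1 + N ^ 2) * a y ≤ 1 - (1 - a y) ^ (N ^ 3) := by
      intro y hy
      have h2 := pow_le_inv (ha0 y) (ha1 y) (N ^ 3)
      push_cast at h2
      have hc0 : 0 ≤ (N : ℝ) ^ 3 * a y := mul_nonneg (by positivity) (ha0 y)
      have hc1 : (N : ℝ) ^ 3 * a y ≤ N ^ 2 := by
        calc (N : ℝ) ^ 3 * a y ≤ N ^ 3 * (1 / N) :=
              mul_le_mul_of_nonneg_left (hL y hy) (by positivity)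
          _ = N ^ 2 := by field_simp
      set c := (N : ℝ) ^ 3 * a y with hc
      have h3 : 1 - 1 / (1 + c) = c / (1 + c) := by
        field_simp
        ring
      have h4 : (N : ℝ) ^ 3 / (1 + N ^ 2) * a y = c / (1 + N ^ 2) := by
        rw [hc]; field_simp
      have h5 : c / (1 + (N : ℝ) ^ 2) ≤ c / (1 + c) :=
        div_le_div_of_nonneg_left hc0 (by positivity) (by linarith)
      linarith
    have h2 : (N : ℝ) ^ 3 / (1 + N ^ 2) * ∑ y ∈ L, a y ≤ S := by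
      calc (N : ℝ) ^ 3 / (1 + N ^ 2) * ∑ y ∈ L, a y
          = ∑ y ∈ L, (N : ℝ) ^ 3 / (1 + N ^ 2) * a y := by rw [mul_sum]
        _ ≤ ∑ y ∈ L, (1 - (1 - a y) ^ (N ^ 3)) := sum_le_sum h1
        _ ≤ S := sum_le_sum_of_subset_of_nonneg hLU fun y _ _ => hterm0 y
    have h3 := h2.trans hS1
    have hv0 : 0 ≤ ∑ y ∈ L, a y := sum_nonneg fun y _ => ha0 y
    set v := ∑ y ∈ L, a y
    rw [div_mul_eq_mul_div, div_mul_eq_mul_div, div_le_div_iff₀ (by positivity) hN0] at h3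
    rw [div_mul_eq_mul_div, le_div_iff₀ hN0]
    have h4 : ((N : ℝ) + 1) * (1 + N ^ 2) ≤ 2 * N ^ 3 := by nlinarith [sq_nonneg ((N : ℝ) - 3)]
    have h5 : (N : ℝ) ^ 3 * (v * N) ≤ N ^ 3 * (2 * k) := by
      calc (N : ℝ) ^ 3 * (v * N) = (N : ℝ) ^ 3 * v * N := by ring
        _ ≤ ((N : ℝ) + 1) * k * (1 + (N : ℝ) ^ 2) := h3
        _ = ((N : ℝ) + 1) * (1 + (N : ℝ) ^ 2) * k := by ring
        _ ≤ 2 * (N : ℝ) ^ 3 * k := mul_le_mul_of_nonneg_right h4 hk0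
        _ = (N : ℝ) ^ 3 * (2 * k) := by ring
    exact le_of_mul_le_mul_left h5 (by positivity)

/-! ### The sets of frequent elements -/

section Hi

variable {ιA ιB : Type*} [Fintype ιA] [Fintype ιB] [DecidableEq ιA] [DecidableEq ιB]
  {G : Finset (Finset α)}

open Classical in
/-- The elements of `S` with frequency at least `1 / N`. -/
noncomputable def Hi (U S : Finset α) (G : Finset (Finset α)) (P : ιA → Finset α) (N : ℕ) :
    Finset α := S.filter fun y => 1 / (N : ℝ) ≤ fr U G P y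

lemma mem_Hi {S : Finset α} {P : ιA → Finset α} {N : ℕ} {y : α} :
    y ∈ Hi U S G P N ↔ y ∈ S ∧ 1 / (N : ℝ) ≤ fr U G P y := by
  simp [Hi]

lemma Hi_subset {S : Finset α} {P : ιA → Finset α} {N : ℕ} : Hi U S G P N ⊆ S := fun _ h =>
  (mem_Hi.mp h).1

lemma Hi_anti {S : Finset α} {G' : Finset (Finset α)} {P : ιA → Finset α} {N : ℕ} (h : G ⊆ G') :
    Hi U S G' P N ⊆ Hi U S G P N := fun y hy => by
  rw [mem_Hi] at hy ⊢
  exact ⟨hy.1, hy.2.trans (fr_anti P h y)⟩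

theorem card_Hi_le [Nonempty ιA] {k N : ℕ} (hN : 3 ≤ N) {PA : ιA → Finset α}
    (hs : Sat U G k (N ^ 3) N PA) : (Hi U U G PA N).card ≤ 2 * k := by
  have h := (mass_gen1 (fr_nonneg (U := U) (G := G) PA) (fr_le_one PA) hN (double1 PA hs)
    (Z := Hi U U G PA N) (L := ∅) Hi_subset (empty_subset _) (fun y hy => (mem_Hi.mp hy).2)
    (by simp)).1
  exact_mod_cast h

theorem mass_A [Nonempty ιA] {k N : ℕ} (hN : 3 ≤ N) {PA : ιA → Finset α}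
    (hs : Sat U G k (N ^ 3) N PA) {L : Finset α} (hL : L ⊆ U \ Hi U U G PA N) :
    ∑ y ∈ L, fr U G PA y ≤ 2 / N * k := by
  refine (mass_gen1 (fr_nonneg (U := U) (G := G) PA) (fr_le_one PA) hN (double1 PA hs)
    (Z := ∅) (L := L) (empty_subset _) (hL.trans sdiff_subset) (by simp) ?_).2
  intro y hy
  have h := mem_sdiff.mp (hL hy)
  by_contra hcon
  exact h.2 (mem_Hi.mpr ⟨h.1, (not_le.mp hcon).le⟩)

theorem mass_zA [Nonempty ιA] [Nonempty ιB] {k N : ℕ} (hN : 3 ≤ N) {PA : ιA → Finset α}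
    {PB : ιB → Finset α} (hs : Sat U G k (N ^ 3) N (Sum.elim PA PB)) {A0 : Finset α}
    (hA0 : A0 ⊆ U) {L : Finset α} (hLU : L ⊆ U)
    (hd : Disjoint (Hi U U G PA N ∪ Hi U A0 G PB N) L)
    (hL : ∀ y ∈ L, fr U G PA y ≤ 1 / (N : ℝ) ^ 4) :
    ((Hi U U G PA N ∪ Hi U A0 G PB N).card : ℝ) + (N : ℝ) ^ 3 * ∑ y ∈ L, fr U G PA y
      ≤ (1 + 5 / N) * k := by
  have hle : N ^ 2 ≤ N ^ 3 := Nat.pow_le_pow_right (by omega) (by norm_num)
  refine mass_gen (fr_nonneg PA) (fr_le_one PA) (fr_nonneg PB) (fr_le_one PB) hN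
    (double (h1 := N ^ 3 - N ^ 2) (h2 := N ^ 2) PA PB ?_)
    (union_subset Hi_subset (Hi_subset.trans hA0)) hLU hd ?_ hL
  · rw [Nat.sub_add_cancel hle]; exact hs
  · intro y hy
    rcases mem_union.mp hy with h | h
    · exact Or.inl (mem_Hi.mp h).2
    · exact Or.inr (mem_Hi.mp h).2

theorem mass_zB [Nonempty ιA] [Nonempty ιB] {k N : ℕ} (hN : 3 ≤ N) {PA : ιA → Finset α}
    {PB : ιB → Finset α} (hs : Sat U G k (N ^ 3) N (Sum.elim PA PB)) {A0 : Finset α}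
    (hA0 : A0 ⊆ U) {L : Finset α} (hLU : L ⊆ U)
    (hd : Disjoint (Hi U U G PA N ∪ Hi U A0 G PB N) L)
    (hL : ∀ y ∈ L, fr U G PB y ≤ 1 / (N : ℝ) ^ 4) :
    ((Hi U U G PA N ∪ Hi U A0 G PB N).card : ℝ) + (N : ℝ) ^ 3 * ∑ y ∈ L, fr U G PB y
      ≤ (1 + 5 / N) * k := by
  have hle : N ^ 2 ≤ N ^ 3 := Nat.pow_le_pow_right (by omega) (by norm_num)
  have h := double (h1 := N ^ 2) (h2 := N ^ 3 - N ^ 2) (k := k) (N := N) (U := U) (G := G)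
    PA PB (by rw [Nat.add_sub_cancel' hle]; exact hs)
  refine mass_gen (fr_nonneg PB) (fr_le_one PB) (fr_nonneg (U := U) (G := G) PA)
    (fr_le_one PA) hN ?_ (union_subset Hi_subset (Hi_subset.trans hA0)) hLU hd ?_ hL
  · refine le_trans (le_of_eq ?_) h
    congr 1
    exact sum_congr rfl fun y _ => by rw [mul_comm]
  · intro y hy
    rcases mem_union.mp hy with h | h
    · exact Or.inr (mem_Hi.mp h).2
    · exact Or.inl (mem_Hi.mp h).2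

end Hi

end Pool.Agent.helper94.PT
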