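import Mathlib

/-!
Numerical estimates for the assembly.
-/

namespace Pool.Agent.helper94.PT

lemma num_cube {e : ℝ} (h0 : 0 ≤ e) (h1 : e ≤ 1 / 10) :
    (1 + e) ^ 3 / (1 - e) ^ 2 ≤ 1 + 8 * e := by
  rw [div_le_iff₀ (by nlinarith)]
  nlinarith [mul_nonneg h0 h0, mul_nonneg (mul_nonneg h0 h0) h0]

/-- The main inequality. -/
lemma num_main {e z a b : ℝ} (h0 : 0 ≤ e) (h1 : e ≤ 1 / 10) (hz : 0 ≤ z) (ha : 0 ≤ a)
    (hb : 0 ≤ b) (hza : z + a ≤ 1 + 5 * e) (hzb : z + b ≤ 1 + 5 * e) :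
    (1 + e) ^ 3 * (z ^ 2 / (1 - e) ^ 2) + (1 + e) * ((1 + e) * (a + e)) +
      (z + 2 * e) * ((1 + e) * (b + e)) + 18 * e * (1 + e) + 18 * e * (z + 2 * e) + e
      ≤ 1 + 110 * e := by
  have hz1 : z ≤ 3 / 2 := by linarith
  have ha1 : a ≤ 3 / 2 := by linarith
  have hb1 : b ≤ 3 / 2 := by linarith
  have hz2 : z ^ 2 ≤ 9 / 4 := by nlinarith
  have e1 : (1 + e) ^ 3 * (z ^ 2 / (1 - e) ^ 2) ≤ z ^ 2 + 18 * e := by
    have : (1 + e) ^ 3 * (z ^ 2 / (1 - e) ^ 2) = z ^ 2 * ((1 + e) ^ 3 / (1 - e) ^ 2) := by ring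
    rw [this]
    calc z ^ 2 * ((1 + e) ^ 3 / (1 - e) ^ 2) ≤ z ^ 2 * (1 + 8 * e) :=
          mul_le_mul_of_nonneg_left (num_cube h0 h1) (sq_nonneg z)
      _ = z ^ 2 + 8 * (z ^ 2 * e) := by ring
      _ ≤ z ^ 2 + 18 * e := by nlinarith [mul_le_mul_of_nonneg_right hz2 h0]
  have e2 : (1 + e) * ((1 + e) * (a + e)) ≤ a + 6 * e := by
    have h3 : (1 + e) * (1 + e) ≤ 1 + 3 * e := by nlinarith
    have h4 : a * e ≤ 3 / 2 * e := mul_le_mul_of_nonneg_right ha1 h0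
    have h5 : e * e ≤ 1 / 10 * e := mul_le_mul_of_nonneg_right h1 h0
    calc (1 + e) * ((1 + e) * (a + e)) = (1 + e) * (1 + e) * (a + e) := by ring
      _ ≤ (1 + 3 * e) * (a + e) := mul_le_mul_of_nonneg_right h3 (by linarith)
      _ = a + e + 3 * (a * e) + 3 * (e * e) := by ring
      _ ≤ a + 6 * e := by linarith
  have e3 : (z + 2 * e) * ((1 + e) * (b + e)) ≤ z * b + 8 * e := by
    have h3 : z * e ≤ 3 / 2 * e := mul_le_mul_of_nonneg_right hz1 h0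
    have h4 : b * e ≤ 3 / 2 * e := mul_le_mul_of_nonneg_right hb1 h0
    have h5 : e * e ≤ 1 / 10 * e := mul_le_mul_of_nonneg_right h1 h0
    have h6 : (z + 2 * e) * (b + e) = z * b + z * e + 2 * (b * e) + 2 * (e * e) := by ring
    have h7 : (z + 2 * e) * (b + e) ≤ 28 / 10 := by
      calc (z + 2 * e) * (b + e) ≤ (3 / 2 + 2 / 10) * (3 / 2 + 1 / 10) :=
            mul_le_mul (by linarith) (by linarith) (by linarith) (by norm_num)
        _ ≤ 28 / 10 := by norm_num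
    have h8 : e * ((z + 2 * e) * (b + e)) ≤ e * (28 / 10) := mul_le_mul_of_nonneg_left h7 h0
    calc (z + 2 * e) * ((1 + e) * (b + e)) =
          (z + 2 * e) * (b + e) + e * ((z + 2 * e) * (b + e)) := by ring
      _ ≤ z * b + 8 * e := by rw [h6] at *; linarith
  have e4 : 18 * e * (1 + e) ≤ 20 * e := by nlinarith
  have e5 : 18 * e * (z + 2 * e) ≤ 31 * e := by
    have : z + 2 * e ≤ 17 / 10 := by linarith
    nlinarith
  have e6 : z * b ≤ z * (1 + 5 * e - z) := mul_le_mul_of_nonneg_left (by linarith) hz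
  have e7 : z * e ≤ 3 / 2 * e := mul_le_mul_of_nonneg_right hz1 h0
  nlinarith

end Pool.Agent.helper94.PT
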