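import Pool.Agent.helper94.PT.Iter
import Pool.Agent.helper94.PT.KST
import Pool.Agent.helper94.PT.Direct
import Pool.Agent.helper94.PT.Design

/-!
The phases of the query procedure in terms of real numbers.
-/

namespace Pool.Agent.helper94.PT

open Finset

set_option linter.unusedSectionVars false

variable {α : Type*} [DecidableEq α] {U : Finset α} {F G : Finset (Finset α)}

/-- Right half of a saturated pair of families. -/
lemma Sat.right {ιA ιB : Type*} [Fintype ιA] [Fintype ιB] [DecidableEq ιA] [DecidableEq ιB]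
    {k h N : ℕ} {PA : ιA → Finset α} {PB : ιB → Finset α}
    (hs : Sat U G k h N (Sum.elim PA PB)) : Sat U G k h N PB := by
  intro S hS
  refine le_trans (Nat.mul_le_mul_left N (card_le_card ?_)) (hs (S.image Sum.inr)
    (card_image_le.trans hS))
  intro y hy
  obtain ⟨i, hi, h⟩ := mem_biUnion.mp hy
  exact mem_biUnion.mpr ⟨Sum.inr i, mem_image_of_mem _ hi, h⟩

/-- The middle phase: after few queries the mass on `M` is small. -/
theorem mid_phase {N k p n g m : ℕ} {b : ℝ} (hN : 1 ≤ N) (hp : 1 ≤ p) (hn : 0 < n) (hg : 1 ≤ g)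
    (hF : Big F (N ^ 3 * p)) (hgN : 2 * g ≤ N ^ 3) {P : Fin n → Finset α}
    (hP : ∀ i, (P i).card ≤ p) (M : Finset α) (hG : G ⊆ F) (hM : M.card ≤ m * k)
    (hb0 : 0 ≤ b) (hb : (k : ℝ) ≤ b * (n * p))
    (hκ : (m : ℝ) ^ (g - 1) * (g + g ^ 2 * b * m) * (N : ℝ) ^ (4 * g) * p ≤ k) :
    ∃ G', G ⊆ G' ∧ G' ⊆ F ∧ ∑ y ∈ M, fr U G' P y ≤ k / (N : ℝ) ^ 4 ∧
      (G'.card : ℝ) ≤ G.card + n * (∑ y ∈ M, fr U G P y) / (g ^ 2 * p) := by
  have : Nonempty (Fin n) := ⟨⟨0, hn⟩⟩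
  have hs : 1 ≤ g * p := Nat.one_le_iff_ne_zero.mpr (by positivity)
  obtain ⟨G', h1, h2, h3, h4⟩ := kst_phase (U := U) hF hg hs (by
    calc g * p + g * p = 2 * g * p := by ring
      _ ≤ N ^ 3 * p := Nat.mul_le_mul_right _ hgN) hP M _ G hG le_rfl
  have hNr : (1 : ℝ) ≤ N := by exact_mod_cast hN
  have hpr : (1 : ℝ) ≤ p := by exact_mod_cast hp
  have hgr : (1 : ℝ) ≤ g := by exact_mod_cast hg
  have hnr : (0 : ℝ) < n := by exact_mod_cast hn
  have hk0 : (0 : ℝ) ≤ k := Nat.cast_nonneg _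
  refine ⟨G', h1, h2, ?_, ?_⟩
  · have h5 := kst_mass hn hg h4
    have hMr : (M.card : ℝ) ≤ m * k := by exact_mod_cast hM
    have h6 : (g : ℝ) ^ 2 / n * M.card ≤ g ^ 2 * b * m * p := by
      rcases eq_or_lt_of_le hk0 with hk | hk
      · rw [← hk, mul_zero] at hMr
        have h7 : (M.card : ℝ) = 0 := le_antisymm hMr (Nat.cast_nonneg _)
        rw [h7, mul_zero]
        positivity
      · rw [div_mul_eq_mul_div, div_le_iff₀ hnr]
        calc (g : ℝ) ^ 2 * M.card ≤ g ^ 2 * (m * k) :=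
              mul_le_mul_of_nonneg_left hMr (by positivity)
          _ ≤ g ^ 2 * (m * (b * (n * p))) := by
              refine mul_le_mul_of_nonneg_left (mul_le_mul_of_nonneg_left hb ?_) (by positivity)
              exact Nat.cast_nonneg _
          _ = g ^ 2 * b * m * p * n := by ring
    have h8 : (∑ y ∈ M, fr U G' P y) ^ g ≤ (k / (N : ℝ) ^ 4) ^ g := by
      calc (∑ y ∈ M, fr U G' P y) ^ g
          ≤ (M.card : ℝ) ^ (g - 1) * (((g * p : ℕ) : ℝ) + (g : ℝ) ^ 2 / n * M.card) := h5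
        _ ≤ ((m : ℝ) * k) ^ (g - 1) * (g * p + g ^ 2 * b * m * p) := by
            push_cast
            refine mul_le_mul (pow_le_pow_left₀ (Nat.cast_nonneg _) hMr _) (by linarith)
              (by positivity) (by positivity)
        _ = (k : ℝ) ^ (g - 1) * ((m : ℝ) ^ (g - 1) * (g + g ^ 2 * b * m) * p) := by
            rw [mul_pow]; ring
        _ ≤ (k : ℝ) ^ (g - 1) * (k / (N : ℝ) ^ (4 * g)) := by
            refine mul_le_mul_of_nonneg_left ?_ (by positivity)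
            rw [le_div_iff₀ (by positivity)]
            calc _ = (m : ℝ) ^ (g - 1) * (g + g ^ 2 * b * m) * (N : ℝ) ^ (4 * g) * p := by ring
              _ ≤ k := hκ
        _ = (k / (N : ℝ) ^ 4) ^ g := by
            rw [div_pow, ← pow_mul, mul_div_assoc', ← pow_succ, Nat.sub_add_cancel hg]
    exact (pow_le_pow_iff_left₀ (sum_nonneg fun y _ => fr_nonneg P y) (by positivity)
      (by omega)).1 h8
  · have h5 := sum_card_inter (U := U) (G := G) P M
    rw [Fintype.card_fin] at h5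
    rw [← h5]
    have h6 : ((G'.card * (g * (g * p)) : ℕ) : ℝ) ≤
        ((G.card * (g * (g * p)) + ∑ i, (W U G (P i) ∩ M).card : ℕ) : ℝ) := by exact_mod_cast h3
    rw [← sub_le_iff_le_add', le_div_iff₀ (by positivity)]
    push_cast at h6 ⊢
    nlinarith

/-- The direct phase in terms of real numbers. -/
theorem dir_phase {N k p n : ℕ} {v : ℝ} (hN : 2 ≤ N) (hp : 1 ≤ p) (hn : 0 < n)
    (hF : Big F (N ^ 3 * p)) {P : Fin n → Finset α} (hP : ∀ i, (P i).card ≤ p) (R : Finset α)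
    (hG : G ⊆ F) (hv : ∑ y ∈ R, fr U G P y ≤ (v + 1 / N) * k / (N : ℝ) ^ 3) :
    ∃ G', G ⊆ G' ∧ G' ⊆ F ∧ (∀ i, W U G' (P i) ∩ R = ∅) ∧
      (G'.card : ℝ) ≤ G.card + n * ((v + 1 / N) * k / (N : ℝ) ^ 3) / ((N ^ 3 - 1) * p) + n := by
  have : Nonempty (Fin n) := ⟨⟨0, hn⟩⟩
  have hN3 : 2 ≤ N ^ 3 := by
    calc 2 ≤ N := hN
      _ = N ^ 1 := (pow_one N).symm
      _ ≤ N ^ 3 := Nat.pow_le_pow_right (by omega) (by norm_num)
  have hq : 1 ≤ (N ^ 3 - 1) * p := Nat.one_le_iff_ne_zero.mpr (by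
    apply Nat.mul_ne_zero <;> omega)
  have hpq : p + (N ^ 3 - 1) * p ≤ N ^ 3 * p := by
    rw [Nat.sub_mul, one_mul]
    have : p ≤ N ^ 3 * p := Nat.le_mul_of_pos_left _ (by omega)
    omega
  obtain ⟨G', h1, h2, h3, h4⟩ := direct_phase (U := U) hF hq hpq hP R hG
  refine ⟨G', h1, h2, h3, ?_⟩
  have h5 := sum_card_inter (U := U) (G := G) P R
  rw [Fintype.card_fin] at h5
  have hqr : (((N ^ 3 - 1) * p : ℕ) : ℝ) = ((N : ℝ) ^ 3 - 1) * p := by
    rw [Nat.cast_mul, Nat.cast_sub (by omega)]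
    push_cast
    ring
  have hq0 : (0 : ℝ) < ((N : ℝ) ^ 3 - 1) * p := by
    rw [← hqr]
    exact_mod_cast hq
  have h6 : (G'.card : ℝ) * (((N : ℝ) ^ 3 - 1) * p) ≤ G.card * (((N : ℝ) ^ 3 - 1) * p) +
      n * ((v + 1 / N) * k / (N : ℝ) ^ 3) + n * (((N : ℝ) ^ 3 - 1) * p) := by
    have h7 : ((G'.card * ((N ^ 3 - 1) * p) : ℕ) : ℝ) ≤ ((G.card * ((N ^ 3 - 1) * p) +
      ∑ i, (W U G (P i) ∩ R).card + n * ((N ^ 3 - 1) * p) : ℕ) : ℝ) := by exact_mod_cast h4
    rw [Nat.cast_mul, Nat.cast_add, Nat.cast_add, Nat.cast_mul G.card, Nat.cast_mul n, h5,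
      hqr] at h7
    refine h7.trans ?_
    have h8 : (n : ℝ) * ∑ y ∈ R, fr U G P y ≤ n * ((v + 1 / N) * k / (N : ℝ) ^ 3) :=
      mul_le_mul_of_nonneg_left hv (Nat.cast_nonneg _)
    linarith
  have h9 : (G'.card : ℝ) ≤ (G.card * (((N : ℝ) ^ 3 - 1) * p) +
      n * ((v + 1 / N) * k / (N : ℝ) ^ 3) + n * (((N : ℝ) ^ 3 - 1) * p)) /
      (((N : ℝ) ^ 3 - 1) * p) := by
    rw [le_div_iff₀ hq0]
    exact h6
  refine h9.trans (le_of_eq ?_)
  rw [add_div, add_div, mul_div_cancel_right₀ _ hq0.ne', mul_div_cancel_right₀ _ hq0.ne']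

end Pool.Agent.helper94.PT
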