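import Pool.Agent.helper94.PT.Asm3

/-!
The upper bound for the pair-transversal function.
-/

namespace Pool.Agent.helper94.PT

open Finset

set_option linter.unusedSectionVars false

/-- The query procedure. -/
theorem asm {N : ℕ} (hN : 10 ≤ N) : ∃ κ : ℕ, 1 ≤ κ ∧ ∀ {α : Type*} [DecidableEq α]
    (F : Finset (Finset α)) (k p : ℕ), 1 ≤ p → κ * p ≤ k → κ * k ≤ p ^ 2 →
    (∀ A ∈ F, A.card = k) → Big F (N ^ 3 * p) → ∃ G, G ⊆ F ∧
      (G.card : ℝ) ≤ (1 + 110 / N) * ((k : ℝ) / p / (N : ℝ) ^ 3) ^ 2 ∧ ∀ x y, Miss G x y := by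
  obtain ⟨x0, hx0⟩ := design (N := N) (by omega)
  obtain ⟨g, hg⟩ : ∃ g : ℕ, g = N ^ 3 / 2 := ⟨_, rfl⟩
  obtain ⟨κA, hκA⟩ : ∃ κA : ℝ, κA = ((2 * N ^ 3 : ℕ) : ℝ) ^ (g - 1) *
    (g + g ^ 2 * 1 * ((2 * N ^ 3 : ℕ) : ℝ)) * (N : ℝ) ^ (4 * g) := ⟨_, rfl⟩
  obtain ⟨κB, hκB⟩ : ∃ κB : ℝ, κB = ((1 : ℕ) : ℝ) ^ (g - 1) *
    (g + g ^ 2 * (N : ℝ) ^ 4 * ((1 : ℕ) : ℝ)) * (N : ℝ) ^ (4 * g) := ⟨_, rfl⟩
  refine ⟨⌈κA⌉₊ + ⌈κB⌉₊ + 100 * N ^ 9 + x0 ^ 2 + 2 * N * x0 + 6 * N, by omega, ?_⟩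
  intro α _ F k p hp h1 h2 hk hF
  set κ := ⌈κA⌉₊ + ⌈κB⌉₊ + 100 * N ^ 9 + x0 ^ 2 + 2 * N * x0 + 6 * N with hκ
  have hκp : κ ≤ p := by
    have h3 : κ * κ * p ≤ p * p := by
      calc κ * κ * p = κ * (κ * p) := by ring
        _ ≤ κ * k := Nat.mul_le_mul_left _ h1
        _ ≤ p ^ 2 := h2
        _ = p * p := sq p
    have h4 : κ * κ ≤ p := Nat.le_of_mul_le_mul_right h3 hp
    have h5 : κ ≤ κ * κ := Nat.le_mul_self κ
    exact h5.trans h4
  have hA : κA * p ≤ k := by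
    have h3 : κA ≤ κ := (Nat.le_ceil κA).trans (by exact_mod_cast (by omega : ⌈κA⌉₊ ≤ κ))
    calc κA * p ≤ κ * p := mul_le_mul_of_nonneg_right h3 (Nat.cast_nonneg _)
      _ ≤ k := by exact_mod_cast h1
  have hB : κB * p ≤ k := by
    have h3 : κB ≤ κ := (Nat.le_ceil κB).trans (by exact_mod_cast (by omega : ⌈κB⌉₊ ≤ κ))
    calc κB * p ≤ κ * p := mul_le_mul_of_nonneg_right h3 (Nat.cast_nonneg _)
      _ ≤ k := by exact_mod_cast h1
  refine asm_core (x0 := x0) (g := g) hN hg (fun Z t => hx0 Z t) hp hk hF ?_ ?_ ?_ ?_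
    (by rw [← hκA]; exact hA) (by rw [← hκB]; exact hB)
  · exact (Nat.mul_le_mul_right p (by omega : 100 * N ^ 9 ≤ κ)).trans h1
  · exact (Nat.mul_le_mul_right p (by omega : x0 ^ 2 ≤ κ)).trans h1
  · exact (by omega : 2 * N * x0 ≤ κ).trans hκp
  · exact (Nat.mul_le_mul_right k (by omega : 6 * N ≤ κ)).trans h2

/-- A family without small transversal has a finite subfamily without small transversal. -/
lemma finite_sub {α : Type*} [DecidableEq α] : ∀ (t : ℕ) (F : Set (Finset α)),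
    (∀ T : Finset α, T.card ≤ t → ∃ A ∈ F, Disjoint T A) →
    ∃ F' : Finset (Finset α), (F' : Set (Finset α)) ⊆ F ∧ Big F' t := by
  intro t
  induction t with
  | zero =>
    intro F h
    obtain ⟨A, hA, -⟩ := h ∅ (by simp)
    refine ⟨{A}, by simpa using hA, fun T hT => ⟨A, mem_singleton_self A, ?_⟩⟩
    rw [Nat.le_zero, card_eq_zero] at hT
    rw [hT]
    exact disjoint_empty_left A
  | succ t ih =>
    intro F h
    obtain ⟨A, hA, -⟩ := h ∅ (by simp)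
    have h1 : ∀ x : α, ∃ F' : Finset (Finset α),
        (F' : Set (Finset α)) ⊆ {B | B ∈ F ∧ x ∉ B} ∧ Big F' t := by
      intro x
      refine ih _ fun T hT => ?_
      obtain ⟨B, hB, hd⟩ := h (insert x T) ((card_insert_le x T).trans (by omega))
      rw [disjoint_insert_left] at hd
      exact ⟨B, ⟨hB, hd.1⟩, hd.2⟩
    choose K hK1 hK2 using h1
    refine ⟨insert A (A.biUnion K), ?_, ?_⟩
    · intro B hB
      rw [mem_coe, mem_insert, mem_biUnion] at hB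
      rcases hB with rfl | ⟨x, -, hx⟩
      · exact hA
      · exact (hK1 x hx).1
    · intro T hT
      by_cases hd : Disjoint T A
      · exact ⟨A, mem_insert_self _ _, hd⟩
      · rw [not_disjoint_iff] at hd
        obtain ⟨x, hxT, hxA⟩ := hd
        obtain ⟨B, hB, hd⟩ := hK2 x (T.erase x) (by rw [card_erase_of_mem hxT]; omega)
        have hx : x ∉ B := (hK1 x hB).2
        refine ⟨B, mem_insert_of_mem (mem_biUnion.mpr ⟨x, hxA, hB⟩), ?_⟩
        rw [disjoint_left] at hd ⊢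
        intro y hy
        by_cases hyx : y = x
        · rw [hyx]; exact hx
        · exact hd (mem_erase.mpr ⟨hyx, hy⟩)

/-- Every family of sets with `k` elements (finite or infinite), any at most `r` members of which
are met by some pair `x, y`, has a transversal with at most `m` elements. -/
def HasBound (k r m : ℕ) : Prop :=
  ∀ (α : Type) (F : Set (Finset α)), (∀ A ∈ F, A.card = k) →
    (∀ G : Finset (Finset α), (G : Set (Finset α)) ⊆ F → G.card ≤ r →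
      ∃ x y : α, ∀ A ∈ G, x ∈ A ∨ y ∈ A) →
    ∃ T : Finset α, T.card ≤ m ∧ ∀ A ∈ F, ∃ x ∈ T, x ∈ A

lemma HasBound.mono {k r m m' : ℕ} (h : HasBound k r m) (hm : m ≤ m') : HasBound k r m' := by
  intro α F hF hG
  obtain ⟨T, hT, h1⟩ := h α F hF hG
  exact ⟨T, hT.trans hm, h1⟩

theorem upper1 {ε : ℝ} (hε : 0 < ε) (hε1 : ε ≤ 1) : ∃ C : ℝ, 1 ≤ C ∧ ∀ r k : ℕ, C ≤ r →
    C * r ≤ k → HasBound k r ⌊(1 + ε) * k / √r⌋₊ := by
  classical
  obtain ⟨N, hNr, hN⟩ : ∃ N : ℕ, 110 / ε ≤ N ∧ 10 ≤ N :=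
    ⟨⌈110 / ε⌉₊ + 10, (Nat.le_ceil _).trans (by push_cast; linarith), by omega⟩
  obtain ⟨κ, hκ1, hκ⟩ := asm hN
  have hN0 : (10 : ℝ) ≤ N := by exact_mod_cast hN
  have hκr : (1 : ℝ) ≤ κ := by exact_mod_cast hκ1
  refine ⟨4 * κ ^ 2 + κ * N ^ 6 + 2 * N ^ 3 / ε, ?_, ?_⟩
  · have h1 : (0 : ℝ) ≤ κ * N ^ 6 := by positivity
    have h2 : (0 : ℝ) ≤ 2 * N ^ 3 / ε := by positivity
    nlinarith
  intro r k hr hk α F hFk hG
  have hN30 : (0 : ℝ) < (N : ℝ) ^ 3 := by positivity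
  have e1 : (0 : ℝ) ≤ κ * N ^ 6 := by positivity
  have e2 : (0 : ℝ) ≤ 2 * N ^ 3 / ε := by positivity
  have e3 : (0 : ℝ) ≤ 4 * κ ^ 2 := by positivity
  have hr1 : (1 : ℝ) ≤ r := by nlinarith
  have hr0 : (0 : ℝ) < r := by linarith
  obtain ⟨s, hs⟩ : ∃ s : ℝ, s = √r := ⟨_, rfl⟩
  have hs2 : s ^ 2 = r := by rw [hs]; exact Real.sq_sqrt hr0.le
  have hs0 : 0 < s := by rw [hs]; exact Real.sqrt_pos.mpr hr0
  have hs1 : 2 * κ ≤ s := by
    rw [hs]
    apply Real.le_sqrt_of_sq_le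
    nlinarith
  have hs11 : 1 ≤ s := by linarith
  rw [← hs]
  have hk1 : 2 * N ^ 3 / ε * s ≤ k := by
    have h1 : (2 : ℝ) * N ^ 3 / ε * s ≤ 2 * N ^ 3 / ε * r := by
      apply mul_le_mul_of_nonneg_left _ e2
      rw [← hs2]; nlinarith
    nlinarith
  have hk2 : κ * N ^ 6 * (r : ℝ) ≤ k := by nlinarith
  have hk0 : (0 : ℝ) < k := lt_of_lt_of_le (by positivity) hk2
  obtain ⟨X, hX⟩ : ∃ X : ℝ, X = k / (N ^ 3 * s) := ⟨_, rfl⟩
  have hX0 : 0 < X := by rw [hX]; positivity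
  have hXk : X * (N ^ 3 * s) = k := by rw [hX]; field_simp
  have hXε : 2 / ε ≤ X := by
    rw [hX, le_div_iff₀ (by positivity)]
    calc 2 / ε * ((N : ℝ) ^ 3 * s) = 2 * N ^ 3 / ε * s := by ring
      _ ≤ (k : ℝ) := hk1
  have hXε' : 1 ≤ ε / 2 * X := by
    calc (1 : ℝ) = ε / 2 * (2 / ε) := by field_simp
      _ ≤ ε / 2 * X := mul_le_mul_of_nonneg_left hXε (by positivity)
  obtain ⟨p, hp⟩ : ∃ p : ℕ, p = ⌊(1 + ε) * X⌋₊ := ⟨_, rfl⟩
  have hp1 : (p : ℝ) ≤ (1 + ε) * X := by rw [hp]; exact Nat.floor_le (by positivity)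
  have hp2 : (1 + ε) * X - 1 < p := by rw [hp]; exact Nat.sub_one_lt_floor _
  have hp3 : (1 + ε / 2) * X ≤ p := by linarith
  have hpX : X ≤ p := by nlinarith
  have hp0 : (0 : ℝ) < p := by linarith
  have hp0' : 1 ≤ p := by
    have : 0 < p := by exact_mod_cast hp0
    omega
  by_contra hcon
  push Not at hcon
  obtain ⟨F', hF', hBig⟩ := finite_sub (N ^ 3 * p) F (by
    intro T hT
    obtain ⟨A, hA, hd⟩ := hcon T (by
      apply Nat.le_floor
      calc (T.card : ℝ) ≤ N ^ 3 * p := by exact_mod_cast hT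
        _ ≤ N ^ 3 * ((1 + ε) * X) := mul_le_mul_of_nonneg_left hp1 hN30.le
        _ = (1 + ε) * k / s := by rw [hX]; field_simp)
    exact ⟨A, hA, disjoint_left.mpr fun x hx hxA => hd x hx hxA⟩)
  obtain ⟨G, hGF, hGc, hmiss⟩ := hκ F' k p hp0' (by
    have h1 : (κ : ℝ) * p ≤ k := by
      calc (κ : ℝ) * p ≤ κ * ((1 + ε) * X) := mul_le_mul_of_nonneg_left hp1 (by positivity)
        _ ≤ κ * (2 * X) := by
            apply mul_le_mul_of_nonneg_left _ (by positivity)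
            nlinarith
        _ = (2 * κ) * X := by ring
        _ ≤ s * X := mul_le_mul_of_nonneg_right hs1 hX0.le
        _ ≤ s * X * N ^ 3 := by
            apply le_mul_of_one_le_right (by positivity)
            exact one_le_pow₀ (by linarith)
        _ = k := by rw [← hXk]; ring
    exact_mod_cast h1) (by
    have h1 : (κ : ℝ) * k ≤ (p : ℝ) ^ 2 := by
      have h2 : X ^ 2 ≤ (p : ℝ) ^ 2 := pow_le_pow_left₀ hX0.le hpX 2
      refine le_trans ?_ h2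
      have h3 : X ^ 2 = k ^ 2 / (N ^ 6 * r) := by
        rw [hX, ← hs2]
        field_simp
      rw [h3, le_div_iff₀ (by positivity)]
      calc (κ : ℝ) * k * ((N : ℝ) ^ 6 * r) = ((κ : ℝ) * N ^ 6 * r) * k := by ring
        _ ≤ (k : ℝ) * k := mul_le_mul_of_nonneg_right hk2 hk0.le
        _ = (k : ℝ) ^ 2 := by ring
    exact_mod_cast h1) (fun A hA => hFk A (hF' hA)) hBig
  have hcount : (G.card : ℝ) ≤ r := by
    have h1 : (k : ℝ) / p / (N : ℝ) ^ 3 = X * s / p := by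
      rw [hX]; field_simp
    have h2 : X * s / p ≤ s / (1 + ε / 2) := by
      rw [div_le_div_iff₀ hp0 (by positivity)]
      calc X * s * (1 + ε / 2) = s * ((1 + ε / 2) * X) := by ring
        _ ≤ s * p := mul_le_mul_of_nonneg_left hp3 hs0.le
    have h3 : (X * s / p) ^ 2 ≤ (s / (1 + ε / 2)) ^ 2 :=
      pow_le_pow_left₀ (by positivity) h2 2
    have h4 : 1 + 110 / (N : ℝ) ≤ (1 + ε / 2) ^ 2 := by
      have h5 : 110 / (N : ℝ) ≤ ε := by
        rw [div_le_iff₀ (by linarith)]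
        rw [div_le_iff₀ hε] at hNr
        linarith
      nlinarith [sq_nonneg (ε / 2)]
    calc (G.card : ℝ) ≤ (1 + 110 / N) * (X * s / p) ^ 2 := by rw [← h1]; exact hGc
      _ ≤ (1 + ε / 2) ^ 2 * (s / (1 + ε / 2)) ^ 2 :=
          mul_le_mul h4 h3 (by positivity) (by positivity)
      _ = s ^ 2 := by field_simp
      _ = r := hs2
  obtain ⟨x, y, hxy⟩ := hG G (fun A hA => hF' (hGF hA)) (by exact_mod_cast hcount)
  obtain ⟨A, hA, h1, h2⟩ := hmiss x y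
  rcases hxy A hA with h | h
  · exact h1 h
  · exact h2 h

theorem upper {ε : ℝ} (hε : 0 < ε) : ∃ C : ℝ, 1 ≤ C ∧ ∀ r k : ℕ, C ≤ r →
    C * r ≤ k → HasBound k r ⌊(1 + ε) * k / √r⌋₊ := by
  obtain ⟨C, hC1, hC⟩ := upper1 (ε := min ε 1) (lt_min hε one_pos) (min_le_right _ _)
  refine ⟨C, hC1, fun r k hr hk => (hC r k hr hk).mono (Nat.floor_le_floor ?_)⟩
  have h1 : min ε 1 ≤ ε := min_le_left _ _
  gcongr

end Pool.Agent.helper94.PT
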